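import Pool.Agent.R855.N4.Cusp
import Pool.Agent.Helper993.CS.Z2

/-!
The forms defining the map.
-/

set_option autoImplicit false

open MvPolynomial Pool.Agent.Helper993.CS

namespace Pool.Agent.R855.N4

section Hom

variable {σ K : Type*} [Field K]

lemma hcong {p : MvPolynomial σ K} {m n : ℕ} (h : p.IsHomogeneous m) (e : m = n) :
    p.IsHomogeneous n := e ▸ h

lemma h_int (k : ℕ) [k.AtLeastTwo] {p : MvPolynomial σ K} {n : ℕ} (h : p.IsHomogeneous n) :
    ((OfNat.ofNat k : MvPolynomial σ K) * p).IsHomogeneous n := by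
  have h1 : (OfNat.ofNat k : MvPolynomial σ K) = C (OfNat.ofNat k : K) := (map_ofNat C k).symm
  rw [h1]
  exact h.C_mul _

/-- a triple of forms -/
def TrHom (T : Tr (MvPolynomial σ K)) (a : ℕ) : Prop :=
  (T.x1.IsHomogeneous (2 * a) ∧ T.x2.IsHomogeneous (2 * a) ∧ T.x3.IsHomogeneous (2 * a)) ∧
    T.y1.IsHomogeneous (3 * a) ∧ T.y2.IsHomogeneous (3 * a) ∧ T.y3.IsHomogeneous (3 * a)

lemma hcX {x1 y1 x2 y2 : MvPolynomial σ K} {a : ℕ} (h1 : x1.IsHomogeneous (2 * a))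
    (h2 : y1.IsHomogeneous (3 * a)) (h3 : x2.IsHomogeneous (2 * a))
    (h4 : y2.IsHomogeneous (3 * a)) : (cX x1 y1 x2 y2).IsHomogeneous (6 * a) := by
  unfold cX
  refine IsHomogeneous.sub ?_ ?_
  · exact hcong ((h4.sub h2).pow 2) (by ring)
  · exact hcong ((h1.add h3).mul ((h3.sub h1).pow 2)) (by ring)

lemma hcY {x1 y1 x2 y2 : MvPolynomial σ K} {a : ℕ} (h1 : x1.IsHomogeneous (2 * a))
    (h2 : y1.IsHomogeneous (3 * a)) (h3 : x2.IsHomogeneous (2 * a))
    (h4 : y2.IsHomogeneous (3 * a)) : (cY x1 y1 x2 y2).IsHomogeneous (9 * a) := by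
  unfold cY
  refine IsHomogeneous.neg (IsHomogeneous.add ?_ ?_)
  · exact hcong (h2.mul ((h3.sub h1).pow 3)) (by ring)
  · refine hcong ((h4.sub h2).mul (IsHomogeneous.sub (hcX h1 h2 h3 h4) (n := 6 * a) ?_)) (by ring)
    exact hcong (h1.mul ((h3.sub h1).pow 2)) (by ring)

lemma hW {T : Tr (MvPolynomial σ K)} {a : ℕ} (h : TrHom T a) : T.W.IsHomogeneous (10 * a) := by
  obtain ⟨⟨h1, h2, h3⟩, h4, h5, h6⟩ := h
  unfold Tr.W
  refine IsHomogeneous.sub ?_ ?_
  · exact hcong ((hcX h2 h5 h3 h6).mul ((h2.sub h1).pow 2)) (by ring)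
  · exact hcong ((hcX h1 h4 h2 h5).mul ((h3.sub h2).pow 2)) (by ring)

lemma hU {T : Tr (MvPolynomial σ K)} {a : ℕ} (h : TrHom T a) : TrHom (U T) (15 * a) := by
  have hw := hW h
  obtain ⟨⟨h1, h2, h3⟩, h4, h5, h6⟩ := h
  have q1 := hcX h1 h4 h2 h5
  have q2 := hcY h1 h4 h2 h5
  have r1 := hcX h2 h5 h3 h6
  have r2 := hcY h2 h5 h3 h6
  have w := h2.sub h1
  have w' := h3.sub h2
  have Q1 : (cX T.x1 T.y1 T.x2 T.y2 * (T.x3 - T.x2) ^ 2).IsHomogeneous (2 * (5 * a)) :=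
    hcong (q1.mul (w'.pow 2)) (by ring)
  have Q2 : (cY T.x1 T.y1 T.x2 T.y2 * (T.x3 - T.x2) ^ 3).IsHomogeneous (3 * (5 * a)) :=
    hcong (q2.mul (w'.pow 3)) (by ring)
  have R1 : (cX T.x2 T.y2 T.x3 T.y3 * (T.x2 - T.x1) ^ 2).IsHomogeneous (2 * (5 * a)) :=
    hcong (r1.mul (w.pow 2)) (by ring)
  have R2 : (cY T.x2 T.y2 T.x3 T.y3 * (T.x2 - T.x1) ^ 3).IsHomogeneous (3 * (5 * a)) :=
    hcong (r2.mul (w.pow 3)) (by ring)
  refine ⟨⟨?_, ?_, ?_⟩, ?_, ?_, ?_⟩
  · exact hcong ((((w.mul w').mul hw).pow 2).mul h1) (by ring)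
  · exact hcong (Q1.mul (hw.pow 2)) (by ring)
  · exact hcong (hcX Q1 Q2 R1 R2) (by ring)
  · exact hcong ((((w.mul w').mul hw).pow 3).mul h4) (by ring)
  · exact hcong (Q2.mul (hw.pow 3)) (by ring)
  · exact hcong (hcY Q1 Q2 R1 R2) (by ring)

lemma hPsi {T : Tr (MvPolynomial σ K)} {a : ℕ} (h : TrHom T a) (i : Fin 4) :
    (Psi T i).IsHomogeneous (5 * a) := by
  obtain ⟨⟨h1, h2, h3⟩, h4, h5, h6⟩ := h
  fin_cases i
  · exact hcong (h1.mul (h5.sub h4)) (by ring)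
  · exact hcong (h2.mul (h5.sub h4)) (by ring)
  · exact hcong (h3.mul (h5.sub h4)) (by ring)
  · exact hcong (h1.mul (h6.sub h4)) (by ring)

end Hom

section

variable (K : Type*) [Field K]

/-- the variables -/
noncomputable abbrev XX : Fin (3+1) → MvPolynomial (Fin (3+1)) K := fun i => X i

lemma hX (i : Fin 4) : (XX K i).IsHomogeneous 1 := isHomogeneous_X _ _

lemma hpM : (pM (XX K)).IsHomogeneous 2 := (hX K 3).mul ((hX K 0).sub (hX K 3))

lemma hcube (i j : Fin 4) : (XX K i ^ 3 - XX K j ^ 3).IsHomogeneous 3 :=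
  ((hX K i).pow 3).sub ((hX K j).pow 3)

lemma hpb : (pb (XX K)).IsHomogeneous 4 :=
  ((hX K 0).mul (hcube K 0 2)).sub ((hX K 3).mul (hcube K 0 1))

lemma hpy : (py (XX K)).IsHomogeneous 12 := by
  unfold py
  refine IsHomogeneous.neg ?_
  have h1 : ((XX K 0 ^ 3 - XX K 1 ^ 3) * pM (XX K) + pb (XX K) * XX K 0).IsHomogeneous 5 :=
    ((hcube K 0 1).mul (hpM K)).add ((hpb K).mul (hX K 0))
  have h2 := (((h_int 4 (hX K 0)).mul (hpM K)).mul (hpb K)).mul h1
  exact hcong h2 (by norm_num)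

lemma hPhi : TrHom (Phi (XX K)) 4 := by
  have h1 : (4 * pb (XX K) * pM (XX K)).IsHomogeneous 6 := (h_int 4 (hpb K)).mul (hpM K)
  have h2 : ∀ i j : Fin 4, (XX K i * XX K j).IsHomogeneous 2 := fun i j => (hX K i).mul (hX K j)
  have h3 : ∀ i j : Fin 4,
      (8 * (XX K i * XX K j) * pM (XX K) * pb (XX K) ^ 2).IsHomogeneous 12 := fun i j =>
    hcong (((h_int 8 (h2 i j)).mul (hpM K)).mul ((hpb K).pow 2)) (by norm_num)
  refine ⟨⟨?_, ?_, ?_⟩, ?_, ?_, ?_⟩
  · exact hcong (h1.mul ((hX K 0).pow 2)) (by norm_num)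
  · exact hcong (h1.mul (h2 0 1)) (by norm_num)
  · exact hcong (h1.mul (h2 0 2)) (by norm_num)
  · exact hpy K
  · refine (hpy K).add ?_
    have := h3 0 0
    rwa [← pow_two] at this
  · exact (hpy K).add (h3 0 3)

/-- the forms defining the map -/
noncomputable def FS : Fin (3+1) → MvPolynomial (Fin (3+1)) K := S (XX K)

lemma FS_hom (i : Fin (3+1)) : (FS K i).IsHomogeneous 300 :=
  hcong (hPsi (hU (hPhi K)) i) (by norm_num)

variable {K}

lemma aeval_FS {L : Type*} [CommRing L] [Algebra K L] (ρ : Fin (3+1) → L) (i : Fin (3+1)) :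
    aeval ρ (FS K i) = S ρ i := by
  have h := map_S (aeval ρ : MvPolynomial (Fin (3+1)) K →ₐ[K] L).toRingHom (XX K) i
  have h1 : (fun i => (aeval ρ : MvPolynomial (Fin (3+1)) K →ₐ[K] L).toRingHom (XX K i)) = ρ := by
    funext j
    simp [XX]
  rw [h1] at h
  exact h

lemma aeval_iter {L : Type*} [CommRing L] [Algebra K L] (ρ : Fin (3+1) → L) (n : ℕ)
    (i : Fin (3+1)) : aeval ρ (iter (FS K) n i) = S^[n] ρ i := by
  induction n generalizing i with
  | zero =>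
    show aeval ρ (X i) = ρ i
    rw [aeval_X]
  | succ n ih =>
    rw [Function.iterate_succ_apply', ← aeval_FS (K := K)]
    show aeval ρ (bind₁ (iter (FS K) n) (FS K i)) = _
    rw [aeval_bind₁]
    congr 1
    congr 1
    funext j
    exact ih j

lemma iter_FS (n : ℕ) (i : Fin (3+1)) : iter (FS K) n i = S^[n] (XX K) i := by
  have h := aeval_iter (K := K) (XX K) n i
  rw [← h]
  exact (aeval_X_left_apply _).symm

variable [CharZero K]

/-- the special point -/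
noncomputable def rho0 (K : Type*) [Field K] : Fin (3+1) → K :=
  Psi (Tz (1 : K) ((2 : ℕ) : K) (((2 : ℕ) : K) ^ 2))

lemma condX_ne (n : ℕ) : (Phi (S^[n] (XX K))).cond ≠ 0 := by
  intro h
  have h1 := cusp_cond (rho0 K) 1 one_ne_zero (by rw [one_smul]; rfl) n
  apply h1
  have h2 := congrArg (aeval (rho0 K) : MvPolynomial (Fin (3+1)) K →ₐ[K] K).toRingHom h
  rw [map_cond, map_Phi, map_zero] at h2
  have h3 : (fun i => (aeval (rho0 K) : MvPolynomial (Fin (3+1)) K →ₐ[K] K).toRingHom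
      (S^[n] (XX K) i)) = S^[n] (rho0 K) := by
    funext i
    rw [← iter_FS]
    exact aeval_iter (rho0 K) n i
  rw [h3] at h2
  exact h2

/-- nondegeneracy at points which specialise to the special point -/
lemma cond_of_spec {R : Type*} [CommRing R] (φ : R →+* K) (ρ : Fin (3+1) → R) (c0 : K)
    (hc0 : c0 ≠ 0) (h : (fun i => φ (ρ i)) = c0 • rho0 K) (n : ℕ) :
    (Phi (S^[n] ρ)).cond ≠ 0 := by
  intro h0
  have h1 := cusp_cond (c0 • rho0 K) c0 hc0 rfl n
  apply h1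
  have h2 := congrArg φ h0
  rw [map_cond, map_Phi, map_zero] at h2
  have h3 : ∀ m, (fun i => φ (S^[m] ρ i)) = S^[m] (c0 • rho0 K) := by
    intro m
    induction m with
    | zero => exact h
    | succ m ih =>
      rw [Function.iterate_succ_apply', Function.iterate_succ_apply', ← ih]
      funext i
      exact map_S φ _ i
  rw [h3] at h2
  exact h2

end

end Pool.Agent.R855.N4
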