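import Pool.Agent.R855.N4.Form

/-!
The orbit on the cuspidal curve `y ^ 2 = x ^ 3`.
-/

set_option autoImplicit false

namespace Pool.Agent.R855.N4

variable {K : Type*} [Field K]

/-- points of the cuspidal curve -/
def Tz (a b c : K) : Tr K := ⟨1 / a ^ 2, 1 / a ^ 3, 1 / b ^ 2, 1 / b ^ 3, 1 / c ^ 2, 1 / c ^ 3⟩

lemma Tz_on {a b c : K} : (Tz a b c).On 0 := by
  refine ⟨?_, ?_, ?_⟩ <;> simp only [Tz] <;> ring

lemma cusp_aX {a b : K} (ha : a ≠ 0) (hb : b ≠ 0) (h1 : a + b ≠ 0) (h2 : b - a ≠ 0) :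
    aX (1 / a ^ 2) (1 / a ^ 3) (1 / b ^ 2) (1 / b ^ 3) = 1 / (a + b) ^ 2 := by
  have h3 : 1 / a ^ 2 - 1 / b ^ 2 = (b - a) * (a + b) / (a ^ 2 * b ^ 2) := by
    field_simp
    ring
  have h4 : 1 / a ^ 3 - 1 / b ^ 3 = (b - a) * (a ^ 2 + a * b + b ^ 2) / (a ^ 3 * b ^ 3) := by
    field_simp
    ring
  have h5 : (1 / a ^ 3 - 1 / b ^ 3) / (1 / a ^ 2 - 1 / b ^ 2) =
      (a ^ 2 + a * b + b ^ 2) / (a * b * (a + b)) := by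
    rw [h3, h4]
    field_simp
  rw [aX, h5]
  field_simp
  ring

lemma cusp_aY {a b : K} (ha : a ≠ 0) (hb : b ≠ 0) (h1 : a + b ≠ 0) (h2 : b - a ≠ 0) :
    aY (1 / a ^ 2) (1 / a ^ 3) (1 / b ^ 2) (1 / b ^ 3) = 1 / (a + b) ^ 3 := by
  have h3 : 1 / a ^ 2 - 1 / b ^ 2 = (b - a) * (a + b) / (a ^ 2 * b ^ 2) := by
    field_simp
    ring
  have h4 : 1 / a ^ 3 - 1 / b ^ 3 = (b - a) * (a ^ 2 + a * b + b ^ 2) / (a ^ 3 * b ^ 3) := by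
    field_simp
    ring
  have h5 : (1 / a ^ 3 - 1 / b ^ 3) / (1 / a ^ 2 - 1 / b ^ 2) =
      (a ^ 2 + a * b + b ^ 2) / (a * b * (a + b)) := by
    rw [h3, h4]
    field_simp
  rw [aY, cusp_aX ha hb h1 h2, h5]
  field_simp
  ring

section CharZero

variable [CharZero K]

lemma cast_ne {p q : ℕ} (h : p ≠ q) : (p : K) - (q : K) ≠ 0 := by
  rw [sub_ne_zero]
  exact_mod_cast h

lemma cond_Tz (m : ℕ) (hm : 2 ≤ m) : (Tz (1 : K) m ((m : K) ^ 2)).cond ≠ 0 := by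
  have hm0 : (m : K) ≠ 0 := by
    have : m ≠ 0 := by omega
    exact_mod_cast this
  have hm1 : (m : K) + 1 ≠ 0 := by exact_mod_cast Nat.succ_ne_zero m
  have hm2 : (m : K) - 1 ≠ 0 := by
    have := cast_ne (K := K) (show m ≠ 1 by omega)
    simpa using this
  have c3 : (m : K) ^ 3 - 1 ≠ 0 := by
    have h := cast_ne (K := K) (p := m ^ 3) (q := 1) (by
      have : 2 ^ 3 ≤ m ^ 3 := Nat.pow_le_pow_left hm 3
      omega)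
    push_cast at h
    exact h
  have c6 : (m : K) ^ 6 - 1 ≠ 0 := by
    have h := cast_ne (K := K) (p := m ^ 6) (q := 1) (by
      have : 2 ^ 6 ≤ m ^ 6 := Nat.pow_le_pow_left hm 6
      omega)
    push_cast at h
    exact h
  have b2 : (m : K) - 1 ≠ 0 := hm2
  have x2 : (1 : K) / (m : K) ^ 2 - 1 / 1 ^ 2 ≠ 0 := by
    have : (1 : K) / (m : K) ^ 2 - 1 / 1 ^ 2 = -(((m : K) - 1) * ((m : K) + 1)) / (m : K) ^ 2 := by
      field_simp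
      ring
    rw [this]
    exact div_ne_zero (neg_ne_zero.2 (mul_ne_zero hm2 hm1)) (pow_ne_zero _ hm0)
  have x3 : (1 : K) / ((m : K) ^ 2) ^ 2 - 1 / (m : K) ^ 2 ≠ 0 := by
    have : (1 : K) / ((m : K) ^ 2) ^ 2 - 1 / (m : K) ^ 2 =
        -(((m : K) - 1) * ((m : K) + 1)) / (m : K) ^ 4 := by
      field_simp
      ring
    rw [this]
    exact div_ne_zero (neg_ne_zero.2 (mul_ne_zero hm2 hm1)) (pow_ne_zero _ hm0)
  have hW : (Tz (1 : K) m ((m : K) ^ 2)).W ≠ 0 := by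
    rw [W_eq (Tz (1 : K) m ((m : K) ^ 2)) x2 x3]
    refine mul_ne_zero (pow_ne_zero _ (mul_ne_zero x2 x3)) ?_
    have e1 : aX (1 / (1 : K) ^ 2) (1 / (1 : K) ^ 3) (1 / (m : K) ^ 2) (1 / (m : K) ^ 3) =
        1 / (1 + (m : K)) ^ 2 := cusp_aX one_ne_zero hm0 (by rwa [add_comm]) hm2
    have e2 : aX (1 / (m : K) ^ 2) (1 / (m : K) ^ 3) (1 / ((m : K) ^ 2) ^ 2)
        (1 / ((m : K) ^ 2) ^ 3) = 1 / ((m : K) + (m : K) ^ 2) ^ 2 :=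
      cusp_aX hm0 (pow_ne_zero _ hm0) (by
        have : (m : K) + (m : K) ^ 2 = m * (m + 1) := by ring
        rw [this]
        exact mul_ne_zero hm0 hm1) (by
        have : (m : K) ^ 2 - m = m * (m - 1) := by ring
        rw [this]
        exact mul_ne_zero hm0 hm2)
    show aX (1 / (m : K) ^ 2) (1 / (m : K) ^ 3) (1 / ((m : K) ^ 2) ^ 2)
        (1 / ((m : K) ^ 2) ^ 3) - aX (1 / (1 : K) ^ 2) (1 / (1 : K) ^ 3) (1 / (m : K) ^ 2)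
        (1 / (m : K) ^ 3) ≠ 0
    rw [e1, e2]
    have e3 : (1 : K) / ((m : K) + (m : K) ^ 2) ^ 2 - 1 / (1 + (m : K)) ^ 2 =
        -(((m : K) - 1) * ((m : K) + 1)) / (m ^ 2 * (m + 1) ^ 2) := by
      have e4 : (m : K) + (m : K) ^ 2 = m * (m + 1) := by ring
      rw [e4, add_comm (1 : K) m]
      field_simp
      ring
    rw [e3]
    exact div_ne_zero (neg_ne_zero.2 (mul_ne_zero hm2 hm1))
      (mul_ne_zero (pow_ne_zero _ hm0) (pow_ne_zero _ hm1))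
  have y2 : (1 : K) / (m : K) ^ 3 - 1 / 1 ^ 3 ≠ 0 := by
    have : (1 : K) / (m : K) ^ 3 - 1 / 1 ^ 3 = -((m : K) ^ 3 - 1) / (m : K) ^ 3 := by
      field_simp
      ring
    rw [this]
    exact div_ne_zero (neg_ne_zero.2 c3) (pow_ne_zero _ hm0)
  have y3 : (1 : K) / ((m : K) ^ 2) ^ 3 - 1 / 1 ^ 3 ≠ 0 := by
    have : (1 : K) / ((m : K) ^ 2) ^ 3 - 1 / 1 ^ 3 = -((m : K) ^ 6 - 1) / (m : K) ^ 6 := by
      field_simp
      ring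
    rw [this]
    exact div_ne_zero (neg_ne_zero.2 c6) (pow_ne_zero _ hm0)
  have y4 : (1 : K) / (m : K) ^ 3 - 1 / ((m : K) ^ 2) ^ 3 ≠ 0 := by
    have : (1 : K) / (m : K) ^ 3 - 1 / ((m : K) ^ 2) ^ 3 = ((m : K) ^ 3 - 1) / (m : K) ^ 6 := by
      field_simp
    rw [this]
    exact div_ne_zero c3 (pow_ne_zero _ hm0)
  have x1 : (1 : K) / 1 ^ 2 ≠ 0 := by simp
  exact mul_ne_zero (mul_ne_zero (mul_ne_zero (mul_ne_zero (mul_ne_zero (mul_ne_zero x1 y2) y3) y4)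
    x2) x3) hW

lemma next_Tz (m : ℕ) (hm : 2 ≤ m) : next (Tz (1 : K) m ((m : K) ^ 2)) =
    Tz (1 : K) ((m + 1 : ℕ) : K) ((((m + 1 : ℕ) : K)) ^ 2) := by
  have hm0 : (m : K) ≠ 0 := by
    have : m ≠ 0 := by omega
    exact_mod_cast this
  have hm1 : (m : K) + 1 ≠ 0 := by exact_mod_cast Nat.succ_ne_zero m
  have hm2 : (m : K) - 1 ≠ 0 := by
    have := cast_ne (K := K) (show m ≠ 1 by omega)
    simpa using this
  have hm3 : (m : K) + (m : K) ^ 2 ≠ 0 := by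
    have : (m : K) + (m : K) ^ 2 = m * (m + 1) := by ring
    rw [this]
    exact mul_ne_zero hm0 hm1
  have hm4 : (m : K) ^ 2 - m ≠ 0 := by
    have : (m : K) ^ 2 - m = m * (m - 1) := by ring
    rw [this]
    exact mul_ne_zero hm0 hm2
  have e1 : aX (1 / (1 : K) ^ 2) (1 / (1 : K) ^ 3) (1 / (m : K) ^ 2) (1 / (m : K) ^ 3) =
      1 / (1 + (m : K)) ^ 2 := cusp_aX one_ne_zero hm0 (by rwa [add_comm]) hm2
  have e2 : aX (1 / (m : K) ^ 2) (1 / (m : K) ^ 3) (1 / ((m : K) ^ 2) ^ 2)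
      (1 / ((m : K) ^ 2) ^ 3) = 1 / ((m : K) + (m : K) ^ 2) ^ 2 :=
    cusp_aX hm0 (pow_ne_zero _ hm0) hm3 hm4
  have f1 : aY (1 / (1 : K) ^ 2) (1 / (1 : K) ^ 3) (1 / (m : K) ^ 2) (1 / (m : K) ^ 3) =
      1 / (1 + (m : K)) ^ 3 := cusp_aY one_ne_zero hm0 (by rwa [add_comm]) hm2
  have f2 : aY (1 / (m : K) ^ 2) (1 / (m : K) ^ 3) (1 / ((m : K) ^ 2) ^ 2)
      (1 / ((m : K) ^ 2) ^ 3) = 1 / ((m : K) + (m : K) ^ 2) ^ 3 :=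
    cusp_aY hm0 (pow_ne_zero _ hm0) hm3 hm4
  have hs : (1 : K) + m + (m + m ^ 2) = (m + 1) ^ 2 := by ring
  have hd : (m : K) + m ^ 2 - (1 + m) ≠ 0 := by
    have : (m : K) + m ^ 2 - (1 + m) = (m - 1) * (m + 1) := by ring
    rw [this]
    exact mul_ne_zero hm2 hm1
  have g1 : aX (1 / (1 + (m : K)) ^ 2) (1 / (1 + (m : K)) ^ 3) (1 / ((m : K) + (m : K) ^ 2) ^ 2)
      (1 / ((m : K) + (m : K) ^ 2) ^ 3) = 1 / (((m : K) + 1) ^ 2) ^ 2 := by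
    rw [cusp_aX (by rwa [add_comm]) hm3 (by rw [hs]; exact pow_ne_zero _ hm1) hd, hs]
  have g2 : aY (1 / (1 + (m : K)) ^ 2) (1 / (1 + (m : K)) ^ 3) (1 / ((m : K) + (m : K) ^ 2) ^ 2)
      (1 / ((m : K) + (m : K) ^ 2) ^ 3) = 1 / (((m : K) + 1) ^ 2) ^ 3 := by
    rw [cusp_aY (by rwa [add_comm]) hm3 (by rw [hs]; exact pow_ne_zero _ hm1) hd, hs]
  ext
  · rfl
  · rfl
  · show aX (1 / (1 : K) ^ 2) (1 / (1 : K) ^ 3) (1 / (m : K) ^ 2) (1 / (m : K) ^ 3) =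
      1 / ((m + 1 : ℕ) : K) ^ 2
    rw [e1]
    push_cast
    rw [add_comm]
  · show aY (1 / (1 : K) ^ 2) (1 / (1 : K) ^ 3) (1 / (m : K) ^ 2) (1 / (m : K) ^ 3) =
      1 / ((m + 1 : ℕ) : K) ^ 3
    rw [f1]
    push_cast
    rw [add_comm]
  · show aX (aX (1 / (1 : K) ^ 2) (1 / (1 : K) ^ 3) (1 / (m : K) ^ 2) (1 / (m : K) ^ 3))
      (aY (1 / (1 : K) ^ 2) (1 / (1 : K) ^ 3) (1 / (m : K) ^ 2) (1 / (m : K) ^ 3))
      (aX (1 / (m : K) ^ 2) (1 / (m : K) ^ 3) (1 / ((m : K) ^ 2) ^ 2) (1 / ((m : K) ^ 2) ^ 3))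
      (aY (1 / (m : K) ^ 2) (1 / (m : K) ^ 3) (1 / ((m : K) ^ 2) ^ 2) (1 / ((m : K) ^ 2) ^ 3)) =
      1 / (((m + 1 : ℕ) : K) ^ 2) ^ 2
    rw [e1, e2, f1, f2, g1]
    push_cast
    rfl
  · show aY (aX (1 / (1 : K) ^ 2) (1 / (1 : K) ^ 3) (1 / (m : K) ^ 2) (1 / (m : K) ^ 3))
      (aY (1 / (1 : K) ^ 2) (1 / (1 : K) ^ 3) (1 / (m : K) ^ 2) (1 / (m : K) ^ 3))
      (aX (1 / (m : K) ^ 2) (1 / (m : K) ^ 3) (1 / ((m : K) ^ 2) ^ 2) (1 / ((m : K) ^ 2) ^ 3))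
      (aY (1 / (m : K) ^ 2) (1 / (m : K) ^ 3) (1 / ((m : K) ^ 2) ^ 2) (1 / ((m : K) ^ 2) ^ 3)) =
      1 / (((m + 1 : ℕ) : K) ^ 2) ^ 3
    rw [e1, e2, f1, f2, g2]
    push_cast
    rfl

/-- the orbit on the cuspidal curve -/
theorem cusp_orbit (ρ : Fin 4 → K) (c0 : K) (hc0 : c0 ≠ 0)
    (hρ : ρ = c0 • Psi (Tz (1 : K) ((2 : ℕ) : K) (((2 : ℕ) : K) ^ 2))) (j : ℕ) :
    ∃ c : K, c ≠ 0 ∧ S^[j] ρ = c • Psi (Tz (1 : K) ((j + 2 : ℕ) : K) (((j + 2 : ℕ) : K) ^ 2)) := by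
  induction j with
  | zero => exact ⟨c0, hc0, by simpa using hρ⟩
  | succ j ih =>
    obtain ⟨c, hc, h⟩ := ih
    obtain ⟨c', hc', h'⟩ := S_eq (two_ne_zero) _ 0 Tz_on (cond_Tz (K := K) (j + 2) (by omega)) c hc
    refine ⟨c', hc', ?_⟩
    rw [Function.iterate_succ_apply', h, h', next_Tz (j + 2) (by omega)]

theorem cusp_cond (ρ : Fin 4 → K) (c0 : K) (hc0 : c0 ≠ 0)
    (hρ : ρ = c0 • Psi (Tz (1 : K) ((2 : ℕ) : K) (((2 : ℕ) : K) ^ 2))) (j : ℕ) :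
    (Phi (S^[j] ρ)).cond ≠ 0 := by
  obtain ⟨c, hc, h⟩ := cusp_orbit ρ c0 hc0 hρ j
  have h1 := cond_Tz (K := K) (j + 2) (by omega)
  rw [h, Phi_smul, Phi_Psi _ 0 Tz_on, cond_scale, cond_scale]
  obtain ⟨a1, a2, a3, a4, a5, a6, a7⟩ := cond_ne h1
  have hmu : (Tz (1 : K) ((j + 2 : ℕ) : K) (((j + 2 : ℕ) : K) ^ 2)).mu ≠ 0 :=
    mul_ne_zero (mul_ne_zero (mul_ne_zero (mul_ne_zero two_ne_zero
      (pow_ne_zero _ a1)) (pow_ne_zero _ a2)) a3) a4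
  exact mul_ne_zero (pow_ne_zero _ (pow_ne_zero _ hc)) (mul_ne_zero (pow_ne_zero _ hmu) h1)

end CharZero

end Pool.Agent.R855.N4
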