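import Pool.Agent.R855.N4.Upper
import Pool.Agent.R855.Drop.Prop

/-!
Dominance.
-/

set_option autoImplicit false

open MvPolynomial Pool.Agent.Helper993.CS WeierstrassCurve

namespace Pool.Agent.R855.N4

section Ring

variable {A B : Type*} [CommRing A] [CommRing B]

/-- `(P_1, P_2, P_3) ↦ (-P_1, P_2, -P_3)` -/
def Tr.io (T : Tr A) : Tr A := ⟨T.x1, -T.y1, T.x2, T.y2, T.x3, -T.y3⟩

lemma io_io (T : Tr A) : T.io.io = T := by
  ext <;> simp [Tr.io]

lemma io_scale (c : A) (T : Tr A) : (T.scale c).io = T.io.scale c := by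
  ext <;> simp [Tr.io, Tr.scale]

lemma io_on {T : Tr A} {t : A} (h : T.On t) : T.io.On t := by
  obtain ⟨h1, h2, h3⟩ := h
  exact ⟨by simpa [Tr.io] using h1, by simpa [Tr.io] using h2, by simpa [Tr.io] using h3⟩

lemma map_io (φ : A →+* B) (T : Tr A) : T.io.map φ = (T.map φ).io := by
  ext <;> simp [Tr.io, Tr.map]

/-- the inverse map on coordinates -/
def S' (ρ : Fin 4 → A) : Fin 4 → A := Psi (U (Phi ρ).io).io

lemma map_S' (φ : A →+* B) (ρ : Fin 4 → A) (i : Fin 4) : φ (S' ρ i) = S' (fun i => φ (ρ i)) i := by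
  rw [S', map_Psi, map_io, map_U, map_io, map_Phi, S']

end Ring

section Field

variable {L : Type*} [Field L]

lemma scale_scale (a b : L) (T : Tr L) : (T.scale a).scale b = T.scale (b * a) := by
  ext <;> simp only [Tr.scale] <;> ring

/-- the value of the inverse map -/
lemma S'_eq (ρ : Fin 4 → L) (T : Tr L) (μ : L) (hμ : μ ≠ 0) (hT : Phi ρ = T.scale μ)
    (hc : T.io.cond ≠ 0) : ∃ c : L, c ≠ 0 ∧ S' ρ = c • Psi (next T.io).io := by
  obtain ⟨a1, a2, a3, a4, a5, a6, a7⟩ := cond_ne hc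
  refine ⟨(μ ^ 15 * ((T.io.x2 - T.io.x1) * (T.io.x3 - T.io.x2) * T.io.W)) ^ 5, ?_, ?_⟩
  · exact pow_ne_zero _ (mul_ne_zero (pow_ne_zero _ hμ) (mul_ne_zero (mul_ne_zero a5 a6) a7))
  · rw [S', hT, io_scale, U_scale, U_eq T.io a5 a6 a7, scale_scale, io_scale, Psi_scale]

lemma next_Tz' {a b c : L} (ha : a ≠ 0) (hb : b ≠ 0) (hc : c ≠ 0) (h1 : a + b ≠ 0)
    (h2 : b - a ≠ 0) (h3 : b + c ≠ 0) (h4 : c - b ≠ 0) (h5 : (a + b) + (b + c) ≠ 0)
    (h6 : (b + c) - (a + b) ≠ 0) : next (Tz a b c) = Tz a (a + b) ((a + b) + (b + c)) := by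
  have e1 := cusp_aX ha hb h1 h2
  have e2 := cusp_aY ha hb h1 h2
  have e3 := cusp_aX hb hc h3 h4
  have e4 := cusp_aY hb hc h3 h4
  have e5 := cusp_aX h1 h3 h5 h6
  have e6 := cusp_aY h1 h3 h5 h6
  simp only [next, Tz, e1, e2, e3, e4, e5, e6]

end Field

section Special

variable {K : Type*} [Field K] [CharZero K]

omit [CharZero K] in
lemma Tz_io (a b c : K) : (Tz a b c).io = Tz (-a) b (-c) := by
  ext <;> simp only [Tr.io, Tz]
  · rw [neg_sq]
  · rw [Odd.neg_pow (by decide), div_neg]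
  · rw [neg_sq]
  · rw [Odd.neg_pow (by decide), div_neg]

lemma cond_special : (Tz (1 : K) 3 9).io.cond ≠ 0 := by
  rw [Tz_io]
  norm_num [Tr.cond, Tr.W, cX, Tz]

lemma next_special : (next (Tz (1 : K) 3 9).io).io = Tz 1 ((2 : ℕ) : K) (((2 : ℕ) : K) ^ 2) := by
  rw [Tz_io, next_Tz' (by norm_num) (by norm_num) (by norm_num) (by norm_num) (by norm_num)
    (by norm_num) (by norm_num) (by norm_num) (by norm_num), Tz_io]
  congr 1 <;> norm_num

/-- the special point -/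
noncomputable def rho1 (K : Type*) [Field K] : Fin (3+1) → K := Psi (Tz (1 : K) 3 9)

omit [CharZero K] in
lemma Phi_rho1 : Phi (rho1 K) = (Tz (1 : K) 3 9).scale (Tz (1 : K) 3 9).mu :=
  Phi_Psi _ 0 Tz_on

lemma mu_special : (Tz (1 : K) 3 9).mu ≠ 0 := by
  norm_num [Tr.mu, Tz]

lemma special1 : (Phi (rho1 K)).io.cond ≠ 0 := by
  rw [Phi_rho1, io_scale, cond_scale]
  exact mul_ne_zero (pow_ne_zero _ mu_special) cond_special

lemma special2 : (Phi (S' (rho1 K))).cond ≠ 0 := by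
  obtain ⟨c, hc, h⟩ := S'_eq (rho1 K) (Tz (1 : K) 3 9) _ mu_special Phi_rho1 cond_special
  rw [h, next_special, Phi_smul, Phi_Psi _ 0 Tz_on, cond_scale, cond_scale]
  have h1 := cond_Tz (K := K) 2 le_rfl
  obtain ⟨a1, a2, a3, a4, a5, a6, a7⟩ := cond_ne h1
  have hmu : (Tz (1 : K) ((2 : ℕ) : K) (((2 : ℕ) : K) ^ 2)).mu ≠ 0 :=
    mul_ne_zero (mul_ne_zero (mul_ne_zero (mul_ne_zero two_ne_zero
      (pow_ne_zero _ a1)) (pow_ne_zero _ a2)) a3) a4
  exact mul_ne_zero (pow_ne_zero _ (pow_ne_zero _ hc)) (mul_ne_zero (pow_ne_zero _ hmu) h1)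

end Special

section Main

variable (K : Type*) [Field K]

/-- the forms defining the inverse map -/
noncomputable def FS' : Fin (3+1) → MvPolynomial (Fin (3+1)) K := S' (XX K)

lemma hio {σ : Type*} {T : Tr (MvPolynomial σ K)} {a : ℕ} (h : TrHom T a) : TrHom T.io a := by
  obtain ⟨⟨h1, h2, h3⟩, h4, h5, h6⟩ := h
  exact ⟨⟨h1, h2, h3⟩, h4.neg, h5, h6.neg⟩

lemma FS'_hom (i : Fin (3+1)) : (FS' K i).IsHomogeneous 300 :=
  hcong (hPsi (hio K (hU (hio K (hPhi K)))) i) (by norm_num)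

lemma no_common (q : MvPolynomial (Fin (3+1)) K) (h : ∀ i, q ∣ XX K i) : IsUnit q := by
  have hp : Prime (X 0 : MvPolynomial (Fin (3+1)) K) := X_prime
  rcases hp.irreducible.dvd_iff.1 (h 0) with h1 | h1
  · exact h1
  · exfalso
    obtain ⟨r, hr⟩ := h1.dvd.trans (h 1)
    have h4 := congrArg (eval ![0, 1, 0, 0]) hr
    simp at h4

variable [CharZero K]

lemma gen_cond1 : (Phi (gen K)).io.cond ≠ 0 := by
  intro h0
  apply special1 (K := K)
  have h1 : (Phi (gen K)).io.cond = algebraMap (MvPolynomial (Fin (3+1)) K) (LL K)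
      (Phi (XX K)).io.cond := by
    rw [map_cond, map_io, map_Phi]
    rfl
  rw [h1] at h0
  have h2 := IsFractionRing.to_map_eq_zero_iff.1 h0
  have h3 := congrArg (aeval (rho1 K) : MvPolynomial (Fin (3+1)) K →ₐ[K] K).toRingHom h2
  rw [map_cond, map_io, map_Phi, map_zero] at h3
  have h4 : (fun i => (aeval (rho1 K) : MvPolynomial (Fin (3+1)) K →ₐ[K] K).toRingHom
      (XX K i)) = rho1 K := by
    funext i
    simp [XX]
  rwa [h4] at h3

lemma gen_cond2 : (Phi (S' (gen K))).cond ≠ 0 := by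
  intro h0
  apply special2 (K := K)
  have h1 : (Phi (S' (gen K))).cond = algebraMap (MvPolynomial (Fin (3+1)) K) (LL K)
      (Phi (S' (XX K))).cond := by
    rw [map_cond, map_Phi]
    congr 2
    funext i
    rw [map_S']
    rfl
  rw [h1] at h0
  have h2 := IsFractionRing.to_map_eq_zero_iff.1 h0
  have h3 := congrArg (aeval (rho1 K) : MvPolynomial (Fin (3+1)) K →ₐ[K] K).toRingHom h2
  rw [map_cond, map_Phi, map_zero] at h3
  have h4 : (fun i => (aeval (rho1 K) : MvPolynomial (Fin (3+1)) K →ₐ[K] K).toRingHom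
      (S' (XX K) i)) = S' (rho1 K) := by
    funext i
    rw [map_S']
    congr 1
    funext j
    simp [XX]
  rwa [h4] at h3

/-- `S ∘ S'` is the identity -/
theorem S_S' : ∃ c : LL K, c ≠ 0 ∧ S (S' (gen K)) = c • gen K := by
  classical
  obtain ⟨P1, P2, P3, hRep⟩ := exists_pts K
  obtain ⟨c0, hc0, hgen⟩ := gen_eq K
  have h2 := two_ne (LL K)
  obtain ⟨c1, hc1, h1⟩ := S'_eq (gen K) (T0 K) 1 one_ne_zero (by
    ext <;> simp [T0, Tr.scale]) (gen_cond1 K)
  -- the points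
  have hRio : Rep (tt K) (-P1) P2 (-P3) (T0 K).io := by
    refine ⟨?_, hRep.2.1, ?_⟩
    · exact isPt_neg hRep.1
    · exact isPt_neg hRep.2.2
  have hR2 := hRio.next (gen_cond1 K)
  have hR3 : Rep (tt K) P1 (-P1 + P2) (-((-P1 + P2) + (P2 + -P3))) (next (T0 K).io).io := by
    refine ⟨?_, hR2.2.1, ?_⟩
    · have := isPt_neg hR2.1
      rwa [neg_neg] at this
    · exact isPt_neg hR2.2.2
  have hcond := gen_cond2 K
  rw [h1, Phi_smul, Phi_Psi _ (tt K) hR3.on, cond_scale, cond_scale] at hcond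
  have hc' : (next (T0 K).io).io.cond ≠ 0 := right_ne_zero_of_mul (right_ne_zero_of_mul hcond)
  obtain ⟨c2, hc2, h3⟩ := S_eq h2 _ (tt K) hR3.on hc' c1 hc1
  have hR4 := hR3.next hc'
  have e1 : P1 + (-P1 + P2) = P2 := by abel
  have e2 : (P1 + (-P1 + P2)) + ((-P1 + P2) + -((-P1 + P2) + (P2 + -P3))) = P3 := by abel
  rw [e2, e1] at hR4
  have hT : next (next (T0 K).io).io = T0 K := by
    obtain ⟨b1, b2⟩ := isPt_unique hR4.1 hRep.1
    obtain ⟨b3, b4⟩ := isPt_unique hR4.2.1 hRep.2.1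
    obtain ⟨b5, b6⟩ := isPt_unique hR4.2.2 hRep.2.2
    ext
    · exact b1
    · exact b2
    · exact b3
    · exact b4
    · exact b5
    · exact b6
  refine ⟨c2 * c0⁻¹, mul_ne_zero hc2 (inv_ne_zero hc0), ?_⟩
  rw [h1, h3, hT, mul_smul, hgen, smul_smul c0⁻¹ c0, inv_mul_cancel₀ hc0, one_smul]

/-- the composition of the forms -/
theorem comp_eq : ∃ h : MvPolynomial (Fin (3+1)) K, h ≠ 0 ∧
    ∀ i, bind₁ (FS' K) (FS K i) = h * X i := by
  obtain ⟨c, hc, hS⟩ := S_S' K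
  set Q : Fin (3+1) → MvPolynomial (Fin (3+1)) K := fun i => bind₁ (FS' K) (FS K i) with hQ
  have hQi : ∀ i, algebraMap (MvPolynomial (Fin (3+1)) K) (LL K) (Q i) =
      c * algebraMap (MvPolynomial (Fin (3+1)) K) (LL K) (X i) := by
    intro i
    have h1 : Q i = S (FS' K) i := aeval_FS (FS' K) i
    rw [h1, map_S]
    have h2 : (fun i => algebraMap (MvPolynomial (Fin (3+1)) K) (LL K) (FS' K i)) =
        S' (gen K) := by
      funext j
      rw [FS', map_S']
      rfl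
    rw [h2, hS]
    rfl
  have hQ2 : ∀ i, Q i * X 0 = Q 0 * X i := by
    intro i
    apply IsFractionRing.injective (MvPolynomial (Fin (3+1)) K) (LL K)
    rw [map_mul, map_mul, hQi, hQi]
    ring
  have hdvd : (X 0 : MvPolynomial (Fin (3+1)) K) ∣ Q 0 :=
    red_assoc (P := fun i => Q 0 * XX K i) (G := XX K) (fun i => rfl) (no_common K) (X 0)
      fun i => ⟨Q i, by
        show Q 0 * X i = X 0 * Q i
        rw [← hQ2 i, mul_comm]⟩
  obtain ⟨h, hh⟩ := hdvd
  refine ⟨h, ?_, fun i => ?_⟩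
  · rintro rfl
    have h1 := hQi 0
    rw [hh, mul_zero, map_zero] at h1
    refine mul_ne_zero hc ?_ h1.symm
    exact alg_ne (X_ne_zero _)
  · have h1 := hQ2 i
    rw [hh] at h1
    apply mul_left_cancel₀ (X_ne_zero (R := K) (0 : Fin (3+1)))
    rw [mul_comm, h1]
    ring

/-- a reduced tuple defining the map is dominant -/
theorem dominant {d : ℕ} (f : Fin (3+1) → MvPolynomial (Fin (3+1)) K)
    (H : MvPolynomial (Fin (3+1)) K) (hf : ∀ i, (f i).IsHomogeneous d)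
    (hFf : ∀ i, FS K i = H * f i) : AlgebraicIndependent K f := by
  obtain ⟨h, hh0, hh⟩ := comp_eq K
  have h1 : bind₁ (FS' K) H ∣ h := by
    refine red_assoc (P := fun i => h * XX K i) (G := XX K) (fun i => rfl) (no_common K) _
      fun i => ?_
    show bind₁ (FS' K) H ∣ h * X i
    rw [← hh i, hFf i, map_mul]
    exact dvd_mul_right _ _
  obtain ⟨h', rfl⟩ := h1
  have h2 : ∀ i, bind₁ (FS' K) (f i) = h' * X i := by
    intro i
    have h3 := hh i
    rw [hFf i, map_mul, mul_assoc] at h3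
    exact mul_left_cancel₀ (left_ne_zero_of_mul hh0) h3
  have h3 : AlgebraicIndependent K (fun i => bind₁ (FS' K) (f i)) :=
    Pool.Agent.R855.Drop.algInd_mul (d := 300 * d) (e := 1) X (fun i => bind₁ (FS' K) (f i)) h'
      (fun i => isHomogeneous_X _ i) (fun i => (hf i).aeval (FS' K) (FS'_hom K)) h2
      (right_ne_zero_of_mul hh0) (algebraicIndependent_X (Fin (3+1)) K)
  exact AlgebraicIndependent.of_comp (bind₁ (FS' K)) h3

end Main

end Pool.Agent.R855.N4
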