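import Mathlib

/-!
Three points on a curve `y ^ 2 = x ^ 3 + t`, up to scaling: formulas.
-/

set_option autoImplicit false

namespace Pool.Agent.R855.N4

/-- three points `(x_i, y_i)` -/
@[ext] structure Tr (A : Type*) where
  /-- coordinate -/
  x1 : A
  /-- coordinate -/
  y1 : A
  /-- coordinate -/
  x2 : A
  /-- coordinate -/
  y2 : A
  /-- coordinate -/
  x3 : A
  /-- coordinate -/
  y3 : A

section Ring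

variable {A B : Type*} [CommRing A] [CommRing B]

/-- image of a triple -/
def Tr.map (φ : A →+* B) (T : Tr A) : Tr B :=
  ⟨φ T.x1, φ T.y1, φ T.x2, φ T.y2, φ T.x3, φ T.y3⟩

/-- scaling -/
def Tr.scale (c : A) (T : Tr A) : Tr A :=
  ⟨c ^ 2 * T.x1, c ^ 3 * T.y1, c ^ 2 * T.x2, c ^ 3 * T.y2, c ^ 2 * T.x3, c ^ 3 * T.y3⟩

/-- the three points are on one curve -/
def Tr.On (T : Tr A) (t : A) : Prop :=
  T.y1 ^ 2 = T.x1 ^ 3 + t ∧ T.y2 ^ 2 = T.x2 ^ 3 + t ∧ T.y3 ^ 2 = T.x3 ^ 3 + t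

/-- auxiliary form -/
def pM (ρ : Fin 4 → A) : A := ρ 3 * (ρ 0 - ρ 3)

/-- auxiliary form -/
def pb (ρ : Fin 4 → A) : A := ρ 0 * (ρ 0 ^ 3 - ρ 2 ^ 3) - ρ 3 * (ρ 0 ^ 3 - ρ 1 ^ 3)

/-- auxiliary form -/
def py (ρ : Fin 4 → A) : A :=
  -(4 * ρ 0 * pM ρ * pb ρ * ((ρ 0 ^ 3 - ρ 1 ^ 3) * pM ρ + pb ρ * ρ 0))

/-- the triple of points with given coordinates -/
def Phi (ρ : Fin 4 → A) : Tr A :=
  ⟨4 * pb ρ * pM ρ * ρ 0 ^ 2, py ρ, 4 * pb ρ * pM ρ * (ρ 0 * ρ 1),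
    py ρ + 8 * ρ 0 ^ 2 * pM ρ * pb ρ ^ 2, 4 * pb ρ * pM ρ * (ρ 0 * ρ 2),
    py ρ + 8 * (ρ 0 * ρ 3) * pM ρ * pb ρ ^ 2⟩

/-- the coordinates of a triple -/
def Psi (T : Tr A) : Fin 4 → A :=
  ![T.x1 * (T.y2 - T.y1), T.x2 * (T.y2 - T.y1), T.x3 * (T.y2 - T.y1), T.x1 * (T.y3 - T.y1)]

/-- chord addition, scaled -/
def cX (x1 y1 x2 y2 : A) : A := (y2 - y1) ^ 2 - (x1 + x2) * (x2 - x1) ^ 2

/-- chord addition, scaled -/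
def cY (x1 y1 x2 y2 : A) : A :=
  -(y1 * (x2 - x1) ^ 3 + (y2 - y1) * (cX x1 y1 x2 y2 - x1 * (x2 - x1) ^ 2))

/-- difference of the `x`-coordinates of `P_2 + P_3` and `P_1 + P_2`, scaled -/
def Tr.W (T : Tr A) : A :=
  cX T.x2 T.y2 T.x3 T.y3 * (T.x2 - T.x1) ^ 2 - cX T.x1 T.y1 T.x2 T.y2 * (T.x3 - T.x2) ^ 2

/-- the map `(P_1, P_2, P_3) ↦ (P_1, P_1 + P_2, P_1 + 2 P_2 + P_3)`, scaled -/
def U (T : Tr A) : Tr A :=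
  ⟨((T.x2 - T.x1) * (T.x3 - T.x2) * T.W) ^ 2 * T.x1,
    ((T.x2 - T.x1) * (T.x3 - T.x2) * T.W) ^ 3 * T.y1,
    cX T.x1 T.y1 T.x2 T.y2 * (T.x3 - T.x2) ^ 2 * T.W ^ 2,
    cY T.x1 T.y1 T.x2 T.y2 * (T.x3 - T.x2) ^ 3 * T.W ^ 3,
    cX (cX T.x1 T.y1 T.x2 T.y2 * (T.x3 - T.x2) ^ 2) (cY T.x1 T.y1 T.x2 T.y2 * (T.x3 - T.x2) ^ 3)
      (cX T.x2 T.y2 T.x3 T.y3 * (T.x2 - T.x1) ^ 2) (cY T.x2 T.y2 T.x3 T.y3 * (T.x2 - T.x1) ^ 3),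
    cY (cX T.x1 T.y1 T.x2 T.y2 * (T.x3 - T.x2) ^ 2) (cY T.x1 T.y1 T.x2 T.y2 * (T.x3 - T.x2) ^ 3)
      (cX T.x2 T.y2 T.x3 T.y3 * (T.x2 - T.x1) ^ 2) (cY T.x2 T.y2 T.x3 T.y3 * (T.x2 - T.x1) ^ 3)⟩

/-- nondegeneracy -/
def Tr.cond (T : Tr A) : A :=
  T.x1 * (T.y2 - T.y1) * (T.y3 - T.y1) * (T.y2 - T.y3) * (T.x2 - T.x1) * (T.x3 - T.x2) * T.W

/-- the map on coordinates -/
def S (ρ : Fin 4 → A) : Fin 4 → A := Psi (U (Phi ρ))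

lemma Phi_on (ρ : Fin 4 → A) : (Phi ρ).On (py ρ ^ 2 - (4 * pb ρ * pM ρ * ρ 0 ^ 2) ^ 3) := by
  have hM : pM ρ = ρ 3 * (ρ 0 - ρ 3) := rfl
  have hb : pb ρ = ρ 0 * (ρ 0 ^ 3 - ρ 2 ^ 3) - ρ 3 * (ρ 0 ^ 3 - ρ 1 ^ 3) := rfl
  generalize hMd : pM ρ = M at hM
  generalize hbd : pb ρ = b at hb
  refine ⟨?_, ?_, ?_⟩
  · simp only [Phi, hMd, hbd]
    ring
  · simp only [Phi, py, hMd, hbd]
    ring
  · simp only [Phi, py, hMd, hbd]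
    linear_combination (64 * ρ 0 ^ 2 * M ^ 2 * b ^ 4) * hM - (64 * ρ 0 ^ 2 * M ^ 3 * b ^ 3) * hb

lemma Psi_Phi (ρ : Fin 4 → A) : Psi (Phi ρ) = (32 * pb ρ ^ 3 * pM ρ ^ 2 * ρ 0 ^ 3) • ρ := by
  funext i
  fin_cases i <;> simp [Psi, Phi] <;> ring

lemma Phi_smul (c : A) (ρ : Fin 4 → A) : Phi (c • ρ) = (Phi ρ).scale (c ^ 4) := by
  have h1 : pM (c • ρ) = c ^ 2 * pM ρ := by simp [pM]; ring
  have h2 : pb (c • ρ) = c ^ 4 * pb ρ := by simp [pb]; ring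
  have h3 : py (c • ρ) = c ^ 12 * py ρ := by simp [py, h1, h2]; ring
  ext <;> simp [Phi, Tr.scale, h1, h2, h3] <;> ring

lemma Psi_scale (c : A) (T : Tr A) : Psi (T.scale c) = c ^ 5 • Psi T := by
  funext i
  fin_cases i <;> simp [Psi, Tr.scale] <;> ring

lemma cX_scale (c x1 y1 x2 y2 : A) :
    cX (c ^ 2 * x1) (c ^ 3 * y1) (c ^ 2 * x2) (c ^ 3 * y2) = c ^ 6 * cX x1 y1 x2 y2 := by
  unfold cX
  ring

lemma cY_scale (c x1 y1 x2 y2 : A) :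
    cY (c ^ 2 * x1) (c ^ 3 * y1) (c ^ 2 * x2) (c ^ 3 * y2) = c ^ 9 * cY x1 y1 x2 y2 := by
  unfold cY
  rw [cX_scale]
  ring

lemma W_scale (c : A) (T : Tr A) : (T.scale c).W = c ^ 10 * T.W := by
  unfold Tr.W
  simp only [Tr.scale, cX_scale]
  ring

lemma U_scale (c : A) (T : Tr A) : U (T.scale c) = (U T).scale (c ^ 15) := by
  have hW := W_scale c T
  have h1 : cX (T.scale c).x1 (T.scale c).y1 (T.scale c).x2 (T.scale c).y2 =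
      c ^ 6 * cX T.x1 T.y1 T.x2 T.y2 := cX_scale _ _ _ _ _
  have h2 : cY (T.scale c).x1 (T.scale c).y1 (T.scale c).x2 (T.scale c).y2 =
      c ^ 9 * cY T.x1 T.y1 T.x2 T.y2 := cY_scale _ _ _ _ _
  have h3 : cX (T.scale c).x2 (T.scale c).y2 (T.scale c).x3 (T.scale c).y3 =
      c ^ 6 * cX T.x2 T.y2 T.x3 T.y3 := cX_scale _ _ _ _ _
  have h4 : cY (T.scale c).x2 (T.scale c).y2 (T.scale c).x3 (T.scale c).y3 =
      c ^ 9 * cY T.x2 T.y2 T.x3 T.y3 := cY_scale _ _ _ _ _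
  have h5 : (T.scale c).x2 - (T.scale c).x1 = c ^ 2 * (T.x2 - T.x1) := by
    simp only [Tr.scale]
    ring
  have h6 : (T.scale c).x3 - (T.scale c).x2 = c ^ 2 * (T.x3 - T.x2) := by
    simp only [Tr.scale]
    ring
  have e1 : c ^ 6 * cX T.x1 T.y1 T.x2 T.y2 * (c ^ 2 * (T.x3 - T.x2)) ^ 2 =
      (c ^ 5) ^ 2 * (cX T.x1 T.y1 T.x2 T.y2 * (T.x3 - T.x2) ^ 2) := by ring
  have e2 : c ^ 9 * cY T.x1 T.y1 T.x2 T.y2 * (c ^ 2 * (T.x3 - T.x2)) ^ 3 =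
      (c ^ 5) ^ 3 * (cY T.x1 T.y1 T.x2 T.y2 * (T.x3 - T.x2) ^ 3) := by ring
  have e3 : c ^ 6 * cX T.x2 T.y2 T.x3 T.y3 * (c ^ 2 * (T.x2 - T.x1)) ^ 2 =
      (c ^ 5) ^ 2 * (cX T.x2 T.y2 T.x3 T.y3 * (T.x2 - T.x1) ^ 2) := by ring
  have e4 : c ^ 9 * cY T.x2 T.y2 T.x3 T.y3 * (c ^ 2 * (T.x2 - T.x1)) ^ 3 =
      (c ^ 5) ^ 3 * (cY T.x2 T.y2 T.x3 T.y3 * (T.x2 - T.x1) ^ 3) := by ring
  unfold U
  rw [h1, h2, h3, h4, h5, h6, hW, e1, e2, e3, e4, cX_scale, cY_scale]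
  ext <;> simp only [Tr.scale] <;> ring

lemma cond_scale (c : A) (T : Tr A) : (T.scale c).cond = c ^ 25 * T.cond := by
  unfold Tr.cond
  rw [W_scale]
  simp only [Tr.scale]
  ring

/-- the scaling factor -/
def Tr.mu (T : Tr A) : A :=
  2 * T.x1 ^ 2 * (T.y2 - T.y1) ^ 3 * (T.y3 - T.y1) * (T.y2 - T.y3)

lemma Phi_Psi (T : Tr A) (t : A) (h : T.On t) : Phi (Psi T) = T.scale T.mu := by
  obtain ⟨h1, h2, h3⟩ := h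
  have a0 : Psi T 0 = T.x1 * (T.y2 - T.y1) := rfl
  have a1 : Psi T 1 = T.x2 * (T.y2 - T.y1) := rfl
  have a2 : Psi T 2 = T.x3 * (T.y2 - T.y1) := rfl
  have a3 : Psi T 3 = T.x1 * (T.y3 - T.y1) := rfl
  have eM : pM (Psi T) = T.x1 ^ 2 * (T.y3 - T.y1) * (T.y2 - T.y3) := by
    rw [pM, a0, a3]
    ring
  have e1 : Psi T 0 ^ 3 - Psi T 1 ^ 3 = (T.y2 - T.y1) ^ 3 * (T.y1 ^ 2 - T.y2 ^ 2) := by
    rw [a0, a1, h1, h2]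
    ring
  have e2 : Psi T 0 ^ 3 - Psi T 2 ^ 3 = (T.y2 - T.y1) ^ 3 * (T.y1 ^ 2 - T.y3 ^ 2) := by
    rw [a0, a2, h1, h3]
    ring
  have eb : pb (Psi T) = T.x1 * (T.y2 - T.y1) ^ 4 * (T.y3 - T.y1) * (T.y2 - T.y3) := by
    rw [pb, e1, e2, a0, a3]
    ring
  have ey : py (Psi T) = T.mu ^ 3 * T.y1 := by
    rw [py, e1, eM, eb, a0, Tr.mu]
    ring
  ext
  · show 4 * pb (Psi T) * pM (Psi T) * Psi T 0 ^ 2 = T.mu ^ 2 * T.x1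
    rw [eb, eM, a0, Tr.mu]
    ring
  · exact ey
  · show 4 * pb (Psi T) * pM (Psi T) * (Psi T 0 * Psi T 1) = T.mu ^ 2 * T.x2
    rw [eb, eM, a0, a1, Tr.mu]
    ring
  · show py (Psi T) + 8 * Psi T 0 ^ 2 * pM (Psi T) * pb (Psi T) ^ 2 = T.mu ^ 3 * T.y2
    rw [ey, eb, eM, a0, Tr.mu]
    ring
  · show 4 * pb (Psi T) * pM (Psi T) * (Psi T 0 * Psi T 2) = T.mu ^ 2 * T.x3
    rw [eb, eM, a0, a2, Tr.mu]
    ring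
  · show py (Psi T) + 8 * (Psi T 0 * Psi T 3) * pM (Psi T) * pb (Psi T) ^ 2 = T.mu ^ 3 * T.y3
    rw [ey, eb, eM, a0, a3, Tr.mu]
    ring

/-! ### Naturality -/

lemma map_pM (φ : A →+* B) (ρ : Fin 4 → A) : φ (pM ρ) = pM (fun i => φ (ρ i)) := by
  simp [pM]

lemma map_pb (φ : A →+* B) (ρ : Fin 4 → A) : φ (pb ρ) = pb (fun i => φ (ρ i)) := by
  simp [pb]

lemma map_py (φ : A →+* B) (ρ : Fin 4 → A) : φ (py ρ) = py (fun i => φ (ρ i)) := by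
  simp [py, map_pM, map_pb, map_ofNat φ 4]

lemma map_Phi (φ : A →+* B) (ρ : Fin 4 → A) : (Phi ρ).map φ = Phi (fun i => φ (ρ i)) := by
  simp [Phi, Tr.map, map_pM, map_pb, map_py, map_ofNat φ 4, map_ofNat φ 8]

lemma map_Psi (φ : A →+* B) (T : Tr A) (i : Fin 4) : φ (Psi T i) = Psi (T.map φ) i := by
  fin_cases i <;> simp [Psi, Tr.map]

lemma map_cX (φ : A →+* B) (x1 y1 x2 y2 : A) :
    φ (cX x1 y1 x2 y2) = cX (φ x1) (φ y1) (φ x2) (φ y2) := by simp [cX]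

lemma map_cY (φ : A →+* B) (x1 y1 x2 y2 : A) :
    φ (cY x1 y1 x2 y2) = cY (φ x1) (φ y1) (φ x2) (φ y2) := by simp [cY, map_cX]

lemma map_W (φ : A →+* B) (T : Tr A) : φ T.W = (T.map φ).W := by
  simp [Tr.W, Tr.map, map_cX]

lemma map_U (φ : A →+* B) (T : Tr A) : (U T).map φ = U (T.map φ) := by
  ext <;> simp [U, Tr.map, map_cX, map_cY, map_W]

lemma map_cond (φ : A →+* B) (T : Tr A) : φ T.cond = (T.map φ).cond := by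
  simp [Tr.cond, map_W, Tr.map]

lemma map_S (φ : A →+* B) (ρ : Fin 4 → A) (i : Fin 4) : φ (S ρ i) = S (fun i => φ (ρ i)) i := by
  rw [S, map_Psi, map_U, map_Phi, S]

end Ring

section Field

variable {L : Type*} [Field L]

/-- chord addition -/
def aX (x1 y1 x2 y2 : L) : L := ((y1 - y2) / (x1 - x2)) ^ 2 - x1 - x2

/-- chord addition -/
def aY (x1 y1 x2 y2 : L) : L := -((y1 - y2) / (x1 - x2) * (aX x1 y1 x2 y2 - x1) + y1)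

lemma cX_eq {x1 y1 x2 y2 : L} (h : x2 - x1 ≠ 0) :
    cX x1 y1 x2 y2 = (x2 - x1) ^ 2 * aX x1 y1 x2 y2 := by
  have h' : x1 - x2 ≠ 0 := by
    intro h0
    apply h
    linear_combination -h0
  unfold cX aX
  field_simp
  ring

lemma cY_eq {x1 y1 x2 y2 : L} (h : x2 - x1 ≠ 0) :
    cY x1 y1 x2 y2 = (x2 - x1) ^ 3 * aY x1 y1 x2 y2 := by
  have h' : x1 - x2 ≠ 0 := by
    intro h0
    apply h
    linear_combination -h0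
  unfold cY aY
  rw [cX_eq h]
  have e : (y2 - y1) = (y1 - y2) / (x1 - x2) * (x2 - x1) := by
    field_simp
    ring
  rw [e]
  generalize (y1 - y2) / (x1 - x2) = s
  ring

/-- the triple `(P_1, P_1 + P_2, P_1 + 2 P_2 + P_3)` -/
def next (T : Tr L) : Tr L :=
  ⟨T.x1, T.y1, aX T.x1 T.y1 T.x2 T.y2, aY T.x1 T.y1 T.x2 T.y2,
    aX (aX T.x1 T.y1 T.x2 T.y2) (aY T.x1 T.y1 T.x2 T.y2) (aX T.x2 T.y2 T.x3 T.y3)
      (aY T.x2 T.y2 T.x3 T.y3),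
    aY (aX T.x1 T.y1 T.x2 T.y2) (aY T.x1 T.y1 T.x2 T.y2) (aX T.x2 T.y2 T.x3 T.y3)
      (aY T.x2 T.y2 T.x3 T.y3)⟩

lemma W_eq (T : Tr L) (h1 : T.x2 - T.x1 ≠ 0) (h2 : T.x3 - T.x2 ≠ 0) :
    T.W = ((T.x2 - T.x1) * (T.x3 - T.x2)) ^ 2 *
      (aX T.x2 T.y2 T.x3 T.y3 - aX T.x1 T.y1 T.x2 T.y2) := by
  unfold Tr.W
  rw [cX_eq h1, cX_eq h2]
  ring

lemma U_eq (T : Tr L) (h1 : T.x2 - T.x1 ≠ 0) (h2 : T.x3 - T.x2 ≠ 0) (h3 : T.W ≠ 0) :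
    U T = (next T).scale ((T.x2 - T.x1) * (T.x3 - T.x2) * T.W) := by
  have hW := W_eq T h1 h2
  have h4 : aX T.x2 T.y2 T.x3 T.y3 - aX T.x1 T.y1 T.x2 T.y2 ≠ 0 := by
    intro h0
    apply h3
    rw [hW, h0, mul_zero]
  set w := T.x2 - T.x1 with hw
  set w' := T.x3 - T.x2 with hw'
  have e1 : cX T.x1 T.y1 T.x2 T.y2 * w' ^ 2 = (w * w') ^ 2 * aX T.x1 T.y1 T.x2 T.y2 := by
    rw [cX_eq h1]
    ring
  have e2 : cY T.x1 T.y1 T.x2 T.y2 * w' ^ 3 = (w * w') ^ 3 * aY T.x1 T.y1 T.x2 T.y2 := by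
    rw [cY_eq h1]
    ring
  have e3 : cX T.x2 T.y2 T.x3 T.y3 * w ^ 2 = (w * w') ^ 2 * aX T.x2 T.y2 T.x3 T.y3 := by
    rw [cX_eq h2]
    ring
  have e4 : cY T.x2 T.y2 T.x3 T.y3 * w ^ 3 = (w * w') ^ 3 * aY T.x2 T.y2 T.x3 T.y3 := by
    rw [cY_eq h2]
    ring
  unfold U
  rw [← hw, ← hw', e1, e2, e3, e4, cX_scale, cY_scale, cX_eq h4, cY_eq h4, hW]
  ext <;> simp only [next, Tr.scale] <;> ring

lemma cond_ne {T : Tr L} (h : T.cond ≠ 0) : T.x1 ≠ 0 ∧ T.y2 - T.y1 ≠ 0 ∧ T.y3 - T.y1 ≠ 0 ∧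
    T.y2 - T.y3 ≠ 0 ∧ T.x2 - T.x1 ≠ 0 ∧ T.x3 - T.x2 ≠ 0 ∧ T.W ≠ 0 := by
  unfold Tr.cond at h
  have h1 := right_ne_zero_of_mul h
  have h2 := left_ne_zero_of_mul h
  have h3 := right_ne_zero_of_mul h2
  have h4 := left_ne_zero_of_mul h2
  have h5 := right_ne_zero_of_mul h4
  have h6 := left_ne_zero_of_mul h4
  have h7 := right_ne_zero_of_mul h6
  have h8 := left_ne_zero_of_mul h6
  have h9 := right_ne_zero_of_mul h8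
  have h10 := left_ne_zero_of_mul h8
  exact ⟨left_ne_zero_of_mul h10, right_ne_zero_of_mul h10, h9, h7, h5, h3, h1⟩

/-- one step -/
theorem S_eq (h2 : (2 : L) ≠ 0) (T : Tr L) (t : L) (hT : T.On t) (hc : T.cond ≠ 0) (c : L)
    (hc0 : c ≠ 0) : ∃ c' : L, c' ≠ 0 ∧ S (c • Psi T) = c' • Psi (next T) := by
  obtain ⟨a1, a2, a3, a4, a5, a6, a7⟩ := cond_ne hc
  refine ⟨(((c ^ 4 * 1) ^ 15 * T.mu ^ 15 * ((T.x2 - T.x1) * (T.x3 - T.x2) * T.W)) ^ 5), ?_, ?_⟩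
  · have hmu : T.mu ≠ 0 := mul_ne_zero (mul_ne_zero (mul_ne_zero (mul_ne_zero h2
      (pow_ne_zero _ a1)) (pow_ne_zero _ a2)) a3) a4
    exact pow_ne_zero _ (mul_ne_zero (mul_ne_zero (pow_ne_zero _ (mul_ne_zero (pow_ne_zero _ hc0)
      one_ne_zero)) (pow_ne_zero _ hmu)) (mul_ne_zero (mul_ne_zero a5 a6) a7))
  · have e1 : ∀ (a b : L) (T : Tr L), (T.scale a).scale b = T.scale (b * a) := by
      intro a b T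
      ext <;> simp only [Tr.scale] <;> ring
    rw [S, Phi_smul, Phi_Psi T t hT, e1, U_scale, U_eq T a5 a6 a7, e1, Psi_scale]
    congr 1
    ring

end Field

end Pool.Agent.R855.N4
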