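import Mathlib

/-!
The degrees of the iterates of the rational function `64 z (1 + z)^3 / (1 - 8 z)^3`.
-/

set_option autoImplicit false

open Polynomial

namespace Pool.Agent.R855.N4

variable (K : Type*) [Field K]

/-- numerators and denominators: the numerator is `X * (AB j).1` -/
noncomputable def AB : ℕ → K[X] × K[X]
  | 0 => (1, 1)
  | j + 1 => (64 * (AB j).1 * (X * (AB j).1 + (AB j).2) ^ 3,
      (AB j).2 * ((AB j).2 - 8 * (X * (AB j).1)) ^ 3)

variable {K} [CharZero K]

lemma AB_deg (j : ℕ) : (AB K j).1 ≠ 0 ∧ (AB K j).2 ≠ 0 ∧ (AB K j).1.natDegree = 4 ^ j - 1 ∧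
    (AB K j).2.natDegree = 4 ^ j - 1 := by
  induction j with
  | zero => simp [AB]
  | succ j ih =>
    obtain ⟨h1, h2, h3, h4⟩ := ih
    have hpos : 1 ≤ 4 ^ j := Nat.one_le_pow _ _ (by norm_num)
    have d1 : (X * (AB K j).1).natDegree = 4 ^ j := by
      rw [natDegree_X_mul h1, h3]
      omega
    have hlt : (AB K j).2.natDegree < (X * (AB K j).1).natDegree := by
      rw [d1, h4]
      omega
    have d2 : (X * (AB K j).1 + (AB K j).2).natDegree = 4 ^ j := by
      rw [natDegree_add_eq_left_of_natDegree_lt hlt, d1]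
    have h8 : (8 : K[X]) = C 8 := (map_ofNat C 8).symm
    have h64 : (64 : K[X]) = C 64 := (map_ofNat C 64).symm
    have d3 : ((AB K j).2 - 8 * (X * (AB K j).1)).natDegree = 4 ^ j := by
      have e1 : (8 * (X * (AB K j).1)).natDegree = 4 ^ j := by
        rw [h8, natDegree_C_mul (by norm_num), d1]
      rw [natDegree_sub_eq_right_of_natDegree_lt (by rw [e1, h4]; omega), e1]
    have n2 : X * (AB K j).1 + (AB K j).2 ≠ 0 := by
      intro h0
      rw [h0, natDegree_zero] at d2
      omega
    have n3 : (AB K j).2 - 8 * (X * (AB K j).1) ≠ 0 := by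
      intro h0
      rw [h0, natDegree_zero] at d3
      omega
    have n64 : (64 : K[X]) ≠ 0 := by
      rw [h64, Ne, C_eq_zero]
      norm_num
    refine ⟨?_, ?_, ?_, ?_⟩
    · exact mul_ne_zero (mul_ne_zero n64 h1) (pow_ne_zero _ n2)
    · exact mul_ne_zero h2 (pow_ne_zero _ n3)
    · show (64 * (AB K j).1 * (X * (AB K j).1 + (AB K j).2) ^ 3).natDegree = _
      rw [natDegree_mul (mul_ne_zero n64 h1) (pow_ne_zero _ n2), h64,
        natDegree_C_mul (by norm_num), natDegree_pow, d2, h3, pow_succ]
      omega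
    · show ((AB K j).2 * ((AB K j).2 - 8 * (X * (AB K j).1)) ^ 3).natDegree = _
      rw [natDegree_mul h2 (pow_ne_zero _ n3), natDegree_pow, d3, h4, pow_succ]
      omega

lemma sum_ne (j : ℕ) : X * (AB K j).1 + (AB K j).2 ≠ 0 := by
  obtain ⟨h1, -, h3, h4⟩ := AB_deg (K := K) j
  have hpos : 1 ≤ 4 ^ j := Nat.one_le_pow _ _ (by norm_num)
  intro h0
  have d1 : (X * (AB K j).1).natDegree = 4 ^ j := by
    rw [natDegree_X_mul h1, h3]
    omega
  have hlt : (AB K j).2.natDegree < (X * (AB K j).1).natDegree := by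
    rw [d1, h4]
    omega
  have d2 := natDegree_add_eq_left_of_natDegree_lt hlt
  rw [h0, natDegree_zero] at d2
  omega

lemma diff_ne (j : ℕ) : (AB K j).2 - 8 * (X * (AB K j).1) ≠ 0 := by
  obtain ⟨h1, -, h3, h4⟩ := AB_deg (K := K) j
  have hpos : 1 ≤ 4 ^ j := Nat.one_le_pow _ _ (by norm_num)
  intro h0
  have h8 : (8 : K[X]) = C 8 := (map_ofNat C 8).symm
  have d1 : (8 * (X * (AB K j).1)).natDegree = 4 ^ j := by
    rw [h8, natDegree_C_mul (by norm_num), natDegree_X_mul h1, h3]
    omega
  have h5 := congrArg natDegree (sub_eq_zero.1 h0)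
  rw [d1, h4] at h5
  omega

lemma AB_coprime (j : ℕ) : IsCoprime (X * (AB K j).1) (AB K j).2 := by
  induction j with
  | zero =>
    simp only [AB]
    exact isCoprime_one_right
  | succ j ih =>
    set A := X * (AB K j).1 with hA
    set B := (AB K j).2 with hB
    have e1 : X * (AB K (j+1)).1 = 64 * (A * (A + B) ^ 3) := by
      show X * (64 * (AB K j).1 * (X * (AB K j).1 + (AB K j).2) ^ 3) = _
      rw [hA, hB]
      ring
    have e2 : (AB K (j+1)).2 = B * (B - 8 * A) ^ 3 := rfl
    rw [e1, e2]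
    have h64 : (64 : K[X]) = C 64 := (map_ofNat C 64).symm
    have hu : IsUnit (64 : K[X]) := by
      rw [h64]
      exact isUnit_C.2 (isUnit_iff_ne_zero.2 (by norm_num))
    have h9 : IsUnit (9 : K[X]) := by
      rw [show (9 : K[X]) = C 9 from (map_ofNat C 9).symm]
      exact isUnit_C.2 (isUnit_iff_ne_zero.2 (by norm_num))
    have c1 : IsCoprime A (B - 8 * A) := by
      have := IsCoprime.add_mul_left_right ih (-8)
      rwa [show B + A * -8 = B - 8 * A by ring] at this
    have c2 : IsCoprime (A + B) B := by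
      have := IsCoprime.add_mul_left_left ih 1
      rwa [show A + B * 1 = A + B by ring] at this
    have c3 : IsCoprime (A + B) (B - 8 * A) := by
      -- `9 A = (A + B) - (B - 8 A)`, `9 B = (B - 8 A) + 8 (A + B)`
      have h1 : IsCoprime (A + B) (9 * A) := by
        have h2 : IsCoprime (A + B) A := by
          have := IsCoprime.add_mul_left_left ih.symm 1
          rwa [show B + A * 1 = A + B by ring] at this
        exact (isCoprime_mul_unit_left_right h9 _ _).2 h2
      have h2 := IsCoprime.add_mul_left_right h1.neg_right 1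
      rwa [show -(9 * A) + (A + B) * 1 = B - 8 * A by ring] at h2
    refine (isCoprime_mul_unit_left_left hu _ _).2 ?_
    refine IsCoprime.mul_left ?_ ?_
    · exact ih.mul_right (c1.pow_right)
    · exact (c2.pow_left).mul_right (c3.pow)

end Pool.Agent.R855.N4
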