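import Pool.Agent.R855.N4.Form

/-!
Points on the curves `y ^ 2 = x ^ 3 + t`.
-/

set_option autoImplicit false

open WeierstrassCurve

namespace Pool.Agent.R855.N4

variable {L : Type*} [Field L]

/-- the curve `y ^ 2 = x ^ 3 + t` -/
def Wc (t : L) : WeierstrassCurve.Affine L := ⟨0, 0, 0, 0, t⟩

@[simp] lemma Wc_a₁ (t : L) : (Wc t).a₁ = 0 := rfl
@[simp] lemma Wc_a₂ (t : L) : (Wc t).a₂ = 0 := rfl
@[simp] lemma Wc_a₃ (t : L) : (Wc t).a₃ = 0 := rfl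
@[simp] lemma Wc_a₄ (t : L) : (Wc t).a₄ = 0 := rfl
@[simp] lemma Wc_a₆ (t : L) : (Wc t).a₆ = t := rfl

/-- `P` is the affine point `(x, y)` -/
def IsPt (t : L) (P : (Wc t).Point) (x y : L) : Prop := ∃ h, P = Affine.Point.some x y h

lemma isPt_eq {t : L} {P : (Wc t).Point} {x y : L} (h : IsPt t P x y) : y ^ 2 = x ^ 3 + t := by
  obtain ⟨h, -⟩ := h
  have h1 := h.1
  rw [Affine.equation_iff] at h1
  simpa using h1

lemma nonsing {t x y : L} (h2 : (2 : L) ≠ 0) (h3 : (3 : L) ≠ 0) (h : y ^ 2 = x ^ 3 + t)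
    (hxy : x ≠ 0 ∨ y ≠ 0) : (Wc t).Nonsingular x y := by
  rw [Affine.nonsingular_iff', Affine.equation_iff]
  refine ⟨by simpa using h, ?_⟩
  rcases hxy with h0 | h0
  · left
    simp [h0, h3]
  · right
    simp [h0, h2]

lemma isPt_some {t x y : L} (h2 : (2 : L) ≠ 0) (h3 : (3 : L) ≠ 0) (h : y ^ 2 = x ^ 3 + t)
    (hxy : x ≠ 0 ∨ y ≠ 0) : ∃ P : (Wc t).Point, IsPt t P x y :=
  ⟨.some x y (nonsing h2 h3 h hxy), _, rfl⟩

lemma isPt_congr {t : L} {P : (Wc t).Point} {x y x' y' : L} (h : IsPt t P x y) (hx : x = x')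
    (hy : y = y') : IsPt t P x' y' := by rwa [← hx, ← hy]

lemma isPt_unique {t : L} {P : (Wc t).Point} {x y x' y' : L} (h : IsPt t P x y)
    (h' : IsPt t P x' y') : x = x' ∧ y = y' := by
  obtain ⟨h1, rfl⟩ := h
  obtain ⟨h2, h3⟩ := h'
  simpa using h3

lemma isPt_neg {t : L} {P : (Wc t).Point} {x y : L} (h : IsPt t P x y) : IsPt t (-P) x (-y) := by
  obtain ⟨h1, rfl⟩ := h
  rw [Affine.Point.neg_some]
  refine isPt_congr ⟨_, rfl⟩ rfl ?_
  simp [Affine.negY]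

variable [DecidableEq L]

lemma isPt_add {t : L} {P Q : (Wc t).Point} {x1 y1 x2 y2 : L} (hP : IsPt t P x1 y1)
    (hQ : IsPt t Q x2 y2) (hne : x2 - x1 ≠ 0) :
    IsPt t (P + Q) (aX x1 y1 x2 y2) (aY x1 y1 x2 y2) := by
  obtain ⟨h1, rfl⟩ := hP
  obtain ⟨h2, rfl⟩ := hQ
  have hne' : x1 ≠ x2 := fun h => hne (by rw [h, sub_self])
  rw [Affine.Point.add_of_X_ne hne']
  refine isPt_congr ⟨_, rfl⟩ ?_ ?_
  · rw [Affine.slope_of_X_ne hne']
    simp [aX]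
  · rw [Affine.slope_of_X_ne hne']
    simp [aX, aY, Affine.addY, Affine.negY]

/-- doubling -/
lemma isPt_double {t : L} {P : (Wc t).Point} {x y : L} (h2 : (2 : L) ≠ 0) (hP : IsPt t P x y)
    (hy : y ≠ 0) : IsPt t (P + P) ((3 * x ^ 2 / (2 * y)) ^ 2 - x - x)
      (-((3 * x ^ 2 / (2 * y)) * (((3 * x ^ 2 / (2 * y)) ^ 2 - x - x) - x) + y)) := by
  obtain ⟨h1, rfl⟩ := hP
  have hne : y ≠ (Wc t).negY x y := by
    intro h
    simp only [Affine.negY, Wc_a₁, Wc_a₃] at h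
    have : 2 * y = 0 := by linear_combination h
    exact hy ((mul_eq_zero.1 this).resolve_left h2)
  have hs : (Wc t).slope x x y y = 3 * x ^ 2 / (2 * y) := by
    rw [Affine.slope_of_Y_ne rfl hne]
    simp only [Affine.negY, Wc_a₁, Wc_a₂, Wc_a₃, Wc_a₄]
    congr 1 <;> ring
  rw [Affine.Point.add_self_of_Y_ne hne]
  refine isPt_congr ⟨_, rfl⟩ ?_ ?_
  · rw [hs]
    simp
  · rw [hs]
    simp [Affine.addY, Affine.negY]

/-- the triple of coordinates of three points -/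
def Rep (t : L) (P1 P2 P3 : (Wc t).Point) (T : Tr L) : Prop :=
  IsPt t P1 T.x1 T.y1 ∧ IsPt t P2 T.x2 T.y2 ∧ IsPt t P3 T.x3 T.y3

omit [DecidableEq L] in
lemma Rep.on {t : L} {P1 P2 P3 : (Wc t).Point} {T : Tr L} (h : Rep t P1 P2 P3 T) : T.On t :=
  ⟨isPt_eq h.1, isPt_eq h.2.1, isPt_eq h.2.2⟩

lemma Rep.next {t : L} {P1 P2 P3 : (Wc t).Point} {T : Tr L} (h : Rep t P1 P2 P3 T)
    (hc : T.cond ≠ 0) : Rep t P1 (P1 + P2) ((P1 + P2) + (P2 + P3)) (next T) := by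
  obtain ⟨a1, a2, a3, a4, a5, a6, a7⟩ := cond_ne hc
  have h12 := isPt_add h.1 h.2.1 a5
  have h23 := isPt_add h.2.1 h.2.2 a6
  refine ⟨h.1, h12, ?_⟩
  refine isPt_add h12 h23 ?_
  intro h0
  apply a7
  rw [W_eq T a5 a6, h0, mul_zero]

/-- the iteration -/
theorem iter_rep (h2 : (2 : L) ≠ 0) {t : L} (P1 P2 P3 : (Wc t).Point) (T0 : Tr L)
    (hT0 : Rep t P1 P2 P3 T0) (c0 : L) (hc0 : c0 ≠ 0) (ρ : Fin 4 → L) (hρ : ρ = c0 • Psi T0)
    (n : ℕ) (hcond : ∀ j < n, (Phi (S^[j] ρ)).cond ≠ 0) :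
    ∃ (c : L) (T : Tr L), c ≠ 0 ∧ S^[n] ρ = c • Psi T ∧
      Rep t P1 (P2 + n • P1) (P3 + (2 * n) • P2 + (n ^ 2) • P1) T := by
  induction n with
  | zero => exact ⟨c0, T0, hc0, hρ, by simpa using hT0⟩
  | succ n ih =>
    obtain ⟨c, T, hc, hS, hT⟩ := ih fun j hj => hcond j (by omega)
    have h3 := hcond n (by omega)
    rw [hS, Phi_smul, Phi_Psi T t hT.on, cond_scale, cond_scale] at h3
    have h4 : T.cond ≠ 0 := right_ne_zero_of_mul (right_ne_zero_of_mul h3)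
    obtain ⟨c', hc', h5⟩ := S_eq h2 T t hT.on h4 c hc
    refine ⟨c', next T, hc', ?_, ?_⟩
    · rw [Function.iterate_succ_apply', hS, h5]
    · have h6 := hT.next h4
      have e1 : P1 + (P2 + n • P1) = P2 + (n + 1) • P1 := by
        rw [succ_nsmul]
        abel
      have e2 : P1 + (P2 + n • P1) + (P2 + n • P1 + (P3 + (2 * n) • P2 + n ^ 2 • P1)) =
          P3 + (2 * (n + 1)) • P2 + (n + 1) ^ 2 • P1 := by
        have e3 : (n + 1) ^ 2 = n ^ 2 + n + n + 1 := by ring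
        have e4 : 2 * (n + 1) = 2 * n + 1 + 1 := by ring
        rw [e3, e4]
        simp only [add_nsmul, one_nsmul]
        abel
      rw [e2, e1] at h6
      exact h6

end Pool.Agent.R855.N4
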