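import Pool.Agent.R855.N4.Alg
import Pool.Agent.R855.N4.Pts
import Pool.Agent.R855.N4.Lattes

/-!
The lower bound for the degrees of the iterates `f^(2^k - 2)`.
-/

set_option autoImplicit false

open Polynomial Pool.Agent.Helper993.CS WeierstrassCurve

namespace Pool.Agent.R855.N4

section Points

variable {L : Type*} [Field L] [DecidableEq L]

lemma isPt_double' {t : L} {P : (Wc t).Point} {x y : L} (h2 : (2 : L) ≠ 0) (hP : IsPt t P x y)
    (hy : y ≠ 0) : IsPt t (P + P) (x * (x ^ 3 - 8 * t) / (4 * y ^ 2))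
      (-((27 * x ^ 6 - 36 * x ^ 3 * y ^ 2 + 8 * y ^ 4) / (8 * y ^ 3))) := by
  have h4 : (4 : L) ≠ 0 := by
    rw [show (4 : L) = 2 * 2 by norm_num]
    exact mul_ne_zero h2 h2
  have h8 : (8 : L) ≠ 0 := by
    rw [show (8 : L) = 2 * 2 * 2 by norm_num]
    exact mul_ne_zero (mul_ne_zero h2 h2) h2
  have hE := isPt_eq hP
  have ht : t = y ^ 2 - x ^ 3 := by linear_combination -hE
  refine isPt_congr (isPt_double h2 hP hy) ?_ ?_
  · rw [ht]
    field_simp
    ring
  · field_simp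
    ring

end Points

variable (K : Type*) [Field K]

/-- coordinates of the point `2P` -/
noncomputable def py2 : K[X] := 1 + 20 * X - 8 * X ^ 2

/-- the curve -/
noncomputable def gam : Fin (3+1) → K[X] := ![
  (4 * (1 + X)) * (py2 K - 8 * (1 + X) ^ 2) * (8 * py2 K ^ 3),
  (1 - 8 * X) * (py2 K - 8 * (1 + X) ^ 2) * (8 * py2 K ^ 3),
  (9 * (1 - 8 * X) ^ 4 - 8 * (1 - 8 * X) * py2 K ^ 2) * (py2 K - 8 * (1 + X) ^ 2) * (2 * py2 K),
  (4 * (1 + X)) * (-(27 * (1 - 8 * X) ^ 6 - 36 * (1 - 8 * X) ^ 3 * py2 K ^ 2 + 8 * py2 K ^ 4) -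
    8 * (1 + X) ^ 2 * (8 * py2 K ^ 3))]

lemma nd_add {p q : K[X]} {a : ℕ} (hp : p.natDegree ≤ a) (hq : q.natDegree ≤ a) :
    (p + q).natDegree ≤ a := (natDegree_add_le _ _).trans (max_le hp hq)

lemma nd_sub {p q : K[X]} {a : ℕ} (hp : p.natDegree ≤ a) (hq : q.natDegree ≤ a) :
    (p - q).natDegree ≤ a := (natDegree_sub_le _ _).trans (max_le hp hq)

lemma nd_mul {p q : K[X]} {a b : ℕ} (hp : p.natDegree ≤ a) (hq : q.natDegree ≤ b) :
    (p * q).natDegree ≤ a + b := natDegree_mul_le.trans (add_le_add hp hq)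

lemma nd_pow {p : K[X]} {a : ℕ} (hp : p.natDegree ≤ a) (n : ℕ) :
    (p ^ n).natDegree ≤ n * a := natDegree_pow_le.trans (Nat.mul_le_mul_left _ hp)

lemma nd_const (k : ℕ) [k.AtLeastTwo] (a : ℕ) : ((OfNat.ofNat k : K[X])).natDegree ≤ a := by
  rw [show (OfNat.ofNat k : K[X]) = C (OfNat.ofNat k) from (map_ofNat C k).symm, natDegree_C]
  exact Nat.zero_le _

lemma nd_one (a : ℕ) : ((1 : K[X])).natDegree ≤ a := by simp

lemma nd_X : ((X : K[X])).natDegree ≤ 1 := natDegree_X_le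

lemma gam_deg (i : Fin (3+1)) : (gam K i).natDegree ≤ 9 := by
  have h1 : (4 * (1 + X) : K[X]).natDegree ≤ 1 :=
    (nd_mul K (nd_const K 4 0) (nd_add K (nd_one K 1) (nd_X K))).trans (by norm_num)
  have h2 : (1 - 8 * X : K[X]).natDegree ≤ 1 :=
    nd_sub K (nd_one K 1) ((nd_mul K (nd_const K 8 0) (nd_X K)).trans (by norm_num))
  have h3 : (8 * (1 + X) ^ 2 : K[X]).natDegree ≤ 2 :=
    (nd_mul K (nd_const K 8 0) (nd_pow K (nd_add K (nd_one K 1) (nd_X K)) 2)).trans (by norm_num)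
  have h4 : (py2 K).natDegree ≤ 2 := by
    unfold py2
    refine nd_sub K (nd_add K (nd_one K 2) ?_) ?_
    · exact (nd_mul K (nd_const K 20 0) (nd_X K)).trans (by norm_num)
    · exact (nd_mul K (nd_const K 8 0) (nd_pow K (nd_X K) 2)).trans (by norm_num)
  have h5 := nd_sub K h4 h3
  have h6 : (8 * py2 K ^ 3).natDegree ≤ 6 :=
    (nd_mul K (nd_const K 8 0) (nd_pow K h4 3)).trans (by norm_num)
  fin_cases i
  · exact (nd_mul K (nd_mul K h1 h5) h6).trans (by norm_num)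
  · exact (nd_mul K (nd_mul K h2 h5) h6).trans (by norm_num)
  · refine (nd_mul K (nd_mul K (a := 5) ?_ h5) (b := 2) ?_).trans (by norm_num)
    · refine nd_sub K ?_ ?_
      · exact (nd_mul K (nd_const K 9 0) (nd_pow K h2 4)).trans (by norm_num)
      · exact (nd_mul K (nd_mul K (nd_const K 8 0) h2) (nd_pow K h4 2)).trans (by norm_num)
    · exact (nd_mul K (nd_const K 2 0) h4).trans (by norm_num)
  · refine (nd_mul K h1 (b := 8) ?_).trans (by norm_num)
    refine nd_sub K ?_ ?_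
    · rw [natDegree_neg]
      refine nd_add K (nd_sub K ?_ ?_) ?_
      · exact (nd_mul K (nd_const K 27 0) (nd_pow K h2 6)).trans (by norm_num)
      · exact (nd_mul K (nd_mul K (nd_const K 36 0) (nd_pow K h2 3)) (nd_pow K h4 2)).trans
          (by norm_num)
      · exact (nd_mul K (nd_const K 8 0) (nd_pow K h4 4)).trans (by norm_num)
    · exact (nd_mul K h3 h6).trans (by norm_num)

variable [CharZero K]

lemma gam_spec : (fun i => evalRingHom (0 : K) (gam K i)) = (256 : K) • rho0 K := by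
  funext i
  fin_cases i <;> simp [gam, rho0, Psi, Tz, py2] <;> norm_num

lemma gam_cond (n : ℕ) : (Phi (S^[n] (gam K))).cond ≠ 0 :=
  cond_of_spec (evalRingHom (0 : K)) (gam K) 256 (by norm_num) (gam_spec K) n

/-- the field of rational functions -/
abbrev L1 : Type _ := FractionRing K[X]

instance : CharZero (L1 K) :=
  charZero_of_injective_algebraMap (IsFractionRing.injective K[X] (L1 K))

/-- the inclusion -/
noncomputable def io : K[X] →+* L1 K := algebraMap K[X] (L1 K)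

omit [CharZero K] in
lemma io_inj : Function.Injective (io K) := IsFractionRing.injective K[X] (L1 K)

/-- the point on the curve -/
noncomputable def gamL : Fin (3+1) → L1 K := fun i => io K (gam K i)

omit [CharZero K] in
lemma gamL_iter (n : ℕ) : S^[n] (gamL K) = fun i => io K (S^[n] (gam K) i) := by
  induction n with
  | zero => rfl
  | succ n ih =>
    rw [Function.iterate_succ_apply', Function.iterate_succ_apply', ih]
    funext i
    rw [map_S]

lemma gamL_cond (n : ℕ) : (Phi (S^[n] (gamL K))).cond ≠ 0 := by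
  rw [gamL_iter, ← map_Phi, ← map_cond]
  intro h
  exact gam_cond K n ((injective_iff_map_eq_zero (io K)).1 (io_inj K) _ h)

/-- the parameter of the curve -/
noncomputable def tL : L1 K := io K (64 * X * (1 + X) ^ 3)

theorem lower_aux [DecidableEq (L1 K)] : ∃ (P : (Wc (tL K)).Point) (T0 : Tr (L1 K)) (c0 : L1 K),
    c0 ≠ 0 ∧ gamL K = c0 • Psi T0 ∧ Rep (tL K) P (2 • P) (4 • P) T0 ∧
      T0.x1 = io K (4 * (1 + X)) := by
  have h2 : (2 : L1 K) ≠ 0 := two_ne_zero
  set x1 := io K (4 * (1 + X)) with hx1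
  set y1 := io K (8 * (1 + X) ^ 2) with hy1
  set x2 := io K (1 - 8 * X) with hx2
  set y2 := io K (py2 K) with hy2
  have hXne : (1 + X : K[X]) ≠ 0 := by
    intro h
    have := congrArg (eval 0) h
    simp at this
  have h8 : (8 : K[X]) ≠ 0 := by
    rw [show (8 : K[X]) = C 8 from (map_ofNat C 8).symm, Ne, C_eq_zero]
    norm_num
  have hy1' : y1 ≠ 0 := by
    intro h
    have := (injective_iff_map_eq_zero (io K)).1 (io_inj K) _ h
    exact mul_ne_zero h8 (pow_ne_zero _ hXne) this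
  have hy2' : y2 ≠ 0 := by
    intro h
    have h1 := (injective_iff_map_eq_zero (io K)).1 (io_inj K) _ h
    have := congrArg (eval 0) h1
    simp [py2] at this
  have e1 : y1 ^ 2 = x1 ^ 3 + tL K := by
    rw [hx1, hy1, tL, ← map_pow, ← map_pow, ← map_add]
    congr 1
    ring
  obtain ⟨P, hP⟩ := isPt_some h2 (by norm_num) e1 (Or.inr hy1')
  have hP2 : IsPt (tL K) (P + P) x2 y2 := by
    refine isPt_congr (isPt_double h2 hP hy1') ?_ ?_
    · have hs : 3 * x1 ^ 2 / (2 * y1) = 3 := by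
        rw [div_eq_iff (mul_ne_zero h2 hy1'), hx1, hy1]
        rw [show (3 : L1 K) = io K 3 from (map_ofNat (io K) 3).symm,
          show (2 : L1 K) = io K 2 from (map_ofNat (io K) 2).symm, ← map_pow, ← map_mul, ← map_mul,
          ← map_mul]
        congr 1
        ring
      rw [hs, hx1, hx2]
      rw [show (3 : L1 K) = io K 3 from (map_ofNat (io K) 3).symm, ← map_pow, ← map_sub, ← map_sub]
      congr 1
      ring
    · have hs : 3 * x1 ^ 2 / (2 * y1) = 3 := by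
        rw [div_eq_iff (mul_ne_zero h2 hy1'), hx1, hy1]
        rw [show (3 : L1 K) = io K 3 from (map_ofNat (io K) 3).symm,
          show (2 : L1 K) = io K 2 from (map_ofNat (io K) 2).symm, ← map_pow, ← map_mul, ← map_mul,
          ← map_mul]
        congr 1
        ring
      rw [hs, hx1, hy1, hy2]
      rw [show (3 : L1 K) = io K 3 from (map_ofNat (io K) 3).symm, ← map_pow, ← map_sub, ← map_sub,
        ← map_sub, ← map_mul, ← map_add, ← map_neg, py2]
      congr 1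
      ring
  have hP4 := isPt_double h2 hP2 hy2'
  set s := 3 * x2 ^ 2 / (2 * y2) with hs
  have hs' : s * (2 * y2) = 3 * x2 ^ 2 := by
    rw [hs, div_mul_cancel₀ _ (mul_ne_zero h2 hy2')]
  refine ⟨P, ⟨x1, y1, x2, y2, s ^ 2 - x2 - x2, -(s * ((s ^ 2 - x2 - x2) - x2) + y2)⟩,
    8 * y2 ^ 3, ?_, ?_, ⟨hP, ?_, ?_⟩, rfl⟩
  · exact mul_ne_zero (by norm_num) (pow_ne_zero _ hy2')
  · have g : ∀ i, gamL K i = (![
        x1 * (y2 - y1) * (8 * y2 ^ 3),
        x2 * (y2 - y1) * (8 * y2 ^ 3),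
        (9 * x2 ^ 4 - 8 * x2 * y2 ^ 2) * (y2 - y1) * (2 * y2),
        x1 * (-(27 * x2 ^ 6 - 36 * x2 ^ 3 * y2 ^ 2 + 8 * y2 ^ 4) - y1 * (8 * y2 ^ 3))] :
          Fin 4 → L1 K) i := by
      intro i
      have f9 : io K 9 = 9 := map_ofNat (io K) 9
      have f8 : io K 8 = 8 := map_ofNat (io K) 8
      have f2 : io K 2 = 2 := map_ofNat (io K) 2
      have f27 : io K 27 = 27 := map_ofNat (io K) 27
      have f36 : io K 36 = 36 := map_ofNat (io K) 36
      fin_cases i
      · show io K ((4 * (1 + X)) * (py2 K - 8 * (1 + X) ^ 2) * (8 * py2 K ^ 3)) =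
          x1 * (y2 - y1) * (8 * y2 ^ 3)
        rw [map_mul (io K) _ (8 * py2 K ^ 3), map_mul (io K) (4 * (1 + X)), map_sub,
          map_mul (io K) 8 (py2 K ^ 3), map_pow (io K) (py2 K), f8]
      · show io K ((1 - 8 * X) * (py2 K - 8 * (1 + X) ^ 2) * (8 * py2 K ^ 3)) =
          x2 * (y2 - y1) * (8 * y2 ^ 3)
        rw [map_mul (io K) _ (8 * py2 K ^ 3), map_mul (io K) (1 - 8 * X),
          map_sub (io K) (py2 K), map_mul (io K) 8 (py2 K ^ 3), map_pow (io K) (py2 K), f8]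
      · show io K ((9 * (1 - 8 * X) ^ 4 - 8 * (1 - 8 * X) * py2 K ^ 2) *
          (py2 K - 8 * (1 + X) ^ 2) * (2 * py2 K)) =
          (9 * x2 ^ 4 - 8 * x2 * y2 ^ 2) * (y2 - y1) * (2 * y2)
        rw [map_mul (io K) _ (2 * py2 K), map_mul (io K) _ (py2 K - 8 * (1 + X) ^ 2),
          map_sub (io K) (py2 K), map_mul (io K) 2 (py2 K),
          map_sub (io K) (9 * (1 - 8 * X) ^ 4), map_mul (io K) 9, map_pow (io K) (1 - 8 * X),
          map_mul (io K) _ (py2 K ^ 2), map_mul (io K) 8 (1 - 8 * X), map_pow (io K) (py2 K),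
          f9, f8, f2]
      · show io K ((4 * (1 + X)) * (-(27 * (1 - 8 * X) ^ 6 - 36 * (1 - 8 * X) ^ 3 * py2 K ^ 2 +
          8 * py2 K ^ 4) - 8 * (1 + X) ^ 2 * (8 * py2 K ^ 3))) =
          x1 * (-(27 * x2 ^ 6 - 36 * x2 ^ 3 * y2 ^ 2 + 8 * y2 ^ 4) - y1 * (8 * y2 ^ 3))
        rw [map_mul (io K) (4 * (1 + X)), map_sub (io K) _ (8 * (1 + X) ^ 2 * (8 * py2 K ^ 3)),
          map_mul (io K) (8 * (1 + X) ^ 2) (8 * py2 K ^ 3), map_mul (io K) 8 (py2 K ^ 3),
          map_pow (io K) (py2 K) 3, map_neg, map_add (io K) _ (8 * py2 K ^ 4),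
          map_mul (io K) 8 (py2 K ^ 4), map_pow (io K) (py2 K) 4,
          map_sub (io K) (27 * (1 - 8 * X) ^ 6), map_mul (io K) 27, map_pow (io K) (1 - 8 * X) 6,
          map_mul (io K) _ (py2 K ^ 2), map_mul (io K) 36, map_pow (io K) (1 - 8 * X) 3,
          map_pow (io K) (py2 K) 2, f8, f27, f36]
    funext i
    rw [g i]
    fin_cases i
    · show x1 * (y2 - y1) * (8 * y2 ^ 3) = 8 * y2 ^ 3 * (x1 * (y2 - y1))
      ring
    · show x2 * (y2 - y1) * (8 * y2 ^ 3) = 8 * y2 ^ 3 * (x2 * (y2 - y1))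
      ring
    · show (9 * x2 ^ 4 - 8 * x2 * y2 ^ 2) * (y2 - y1) * (2 * y2) =
        8 * y2 ^ 3 * ((s ^ 2 - x2 - x2) * (y2 - y1))
      have e2 : s ^ 2 * (4 * y2 ^ 2) = 9 * x2 ^ 4 := by
        calc s ^ 2 * (4 * y2 ^ 2) = (s * (2 * y2)) ^ 2 := by ring
          _ = 9 * x2 ^ 4 := by rw [hs']; ring
      linear_combination (-(y2 - y1) * (2 * y2)) * e2
    · show x1 * (-(27 * x2 ^ 6 - 36 * x2 ^ 3 * y2 ^ 2 + 8 * y2 ^ 4) - y1 * (8 * y2 ^ 3)) =
        8 * y2 ^ 3 * (x1 * (-(s * ((s ^ 2 - x2 - x2) - x2) + y2) - y1))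
      have e3 : s ^ 3 * (8 * y2 ^ 3) = 27 * x2 ^ 6 := by
        calc s ^ 3 * (8 * y2 ^ 3) = (s * (2 * y2)) ^ 3 := by ring
          _ = 27 * x2 ^ 6 := by rw [hs']; ring
      linear_combination x1 * e3 - (12 * x1 * x2 * y2 ^ 2) * hs'
  · rw [two_nsmul]
    exact hP2
  · rw [show 4 • P = (P + P) + (P + P) by
      rw [show (4 : ℕ) = 2 + 2 by norm_num, add_nsmul, two_nsmul]]
    exact hP4

/-- the coordinates of `2^j P` -/
theorem two_pow_pt [DecidableEq (L1 K)] (P : (Wc (tL K)).Point) (x1 y1 : L1 K)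
    (hP : IsPt (tL K) P x1 y1) (hx1 : x1 = io K (4 * (1 + X))) (j : ℕ) :
    ∃ x y : L1 K, IsPt (tL K) ((2 ^ j) • P) x y ∧ x ≠ 0 ∧
      x ^ 3 * io K (X * (AB K j).1) = tL K * io K ((AB K j).2) := by
  have h2 : (2 : L1 K) ≠ 0 := two_ne_zero
  have hne : ∀ p : K[X], p ≠ 0 → io K p ≠ 0 := by
    intro p hp h
    exact hp ((injective_iff_map_eq_zero (io K)).1 (io_inj K) _ h)
  have hXne : (1 + X : K[X]) ≠ 0 := by
    intro h
    have := congrArg (eval 0) h
    simp at this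
  have ht : tL K ≠ 0 := by
    apply hne
    refine mul_ne_zero (mul_ne_zero ?_ X_ne_zero) (pow_ne_zero _ hXne)
    rw [show (64 : K[X]) = C 64 from (map_ofNat C 64).symm, Ne, C_eq_zero]
    norm_num
  induction j with
  | zero =>
    refine ⟨x1, y1, by simpa using hP, ?_, ?_⟩
    · rw [hx1]
      apply hne
      refine mul_ne_zero ?_ hXne
      rw [show (4 : K[X]) = C 4 from (map_ofNat C 4).symm, Ne, C_eq_zero]
      norm_num
    · rw [hx1, tL, ← map_pow, ← map_mul, ← map_mul]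
      congr 1
      simp only [AB]
      ring
  | succ j ih =>
    obtain ⟨x, y, hxy, hx, hE⟩ := ih
    set A := io K (X * (AB K j).1) with hA
    set B := io K ((AB K j).2) with hB
    have hA0 : A ≠ 0 := hne _ (mul_ne_zero X_ne_zero (AB_deg (K := K) j).1)
    have hsum : A + B ≠ 0 := by
      rw [hA, hB, ← map_add]
      exact hne _ (sum_ne j)
    have hdiff : B - 8 * A ≠ 0 := by
      rw [hA, hB, show (8 : L1 K) = io K 8 from (map_ofNat (io K) 8).symm, ← map_mul, ← map_sub]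
      exact hne _ (diff_ne j)
    have e0 := isPt_eq hxy
    have e1 : y ^ 2 * A = tL K * (A + B) := by
      rw [e0]
      linear_combination hE
    have e2 : (x ^ 3 - 8 * tL K) * A = tL K * (B - 8 * A) := by
      linear_combination hE
    have hy : y ≠ 0 := by
      rintro rfl
      have : tL K * (A + B) = 0 := by
        rw [← e1]
        ring
      exact mul_ne_zero ht hsum this
    have hx8 : x ^ 3 - 8 * tL K ≠ 0 := by
      intro h0
      rw [h0, zero_mul] at e2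
      exact mul_ne_zero ht hdiff e2.symm
    have hdbl := isPt_double' h2 hxy hy
    rw [← two_nsmul, ← mul_nsmul, ← pow_succ] at hdbl
    refine ⟨_, _, hdbl, ?_, ?_⟩
    · refine div_ne_zero (mul_ne_zero hx hx8) (mul_ne_zero ?_ (pow_ne_zero _ hy))
      norm_num
    · have e3 : io K (X * (AB K (j+1)).1) = 64 * (A * (A + B) ^ 3) := by
        rw [hA, hB, show (64 : L1 K) = io K 64 from (map_ofNat (io K) 64).symm, ← map_add,
          ← map_pow, ← map_mul, ← map_mul]
        congr 1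
        show X * (64 * (AB K j).1 * (X * (AB K j).1 + (AB K j).2) ^ 3) = _
        ring
      have e4 : io K ((AB K (j+1)).2) = B * (B - 8 * A) ^ 3 := by
        rw [hA, hB, show (8 : L1 K) = io K 8 from (map_ofNat (io K) 8).symm, ← map_mul, ← map_sub,
          ← map_pow, ← map_mul]
        rfl
      rw [e3, e4]
      -- `(x^3 - 8 t) (A + B) = y^2 (B - 8 A)`
      have e5 : (x ^ 3 - 8 * tL K) * (A + B) = y ^ 2 * (B - 8 * A) := by
        apply mul_left_cancel₀ hA0
        linear_combination (A + B) * e2 - (B - 8 * A) * e1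
      have e6 : ((x ^ 3 - 8 * tL K) * (A + B)) ^ 3 = (y ^ 2 * (B - 8 * A)) ^ 3 := by rw [e5]
      have h4 : (4 : L1 K) ≠ 0 := by norm_num
      rw [div_pow, div_mul_eq_mul_div, div_eq_iff (pow_ne_zero _ (mul_ne_zero h4
        (pow_ne_zero _ hy)))]
      linear_combination (64 * x ^ 3 * A) * e6 + (64 * y ^ 6 * (B - 8 * A) ^ 3) * hE

/-- the lower bound -/
theorem lower (k e : ℕ) (hRed : RedDeg (iter (FS K) (2 ^ (k + 1) - 2)) e) :
    4 ^ (2 * (k + 1)) - 1 ≤ 27 * e := by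
  classical
  set n := 2 ^ (k + 1) - 2 with hn
  have hn2 : n + 2 = 2 ^ (k + 1) := by
    have : 2 ≤ 2 ^ (k + 1) := by
      calc 2 = 2 ^ 1 := by norm_num
        _ ≤ 2 ^ (k + 1) := Nat.pow_le_pow_right (by norm_num) (by omega)
    omega
  obtain ⟨P, T0, c0, hc0, hgam, hRep, hx1⟩ := lower_aux K
  have h2 : (2 : L1 K) ≠ 0 := two_ne_zero
  obtain ⟨c, T, hc, hS, hT⟩ := iter_rep h2 P (2 • P) (4 • P) T0 hRep c0 hc0 (gamL K) hgam n
    (fun j _ => gamL_cond K j)
  have hcond := gamL_cond K n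
  rw [hS, Phi_smul, Phi_Psi T _ hT.on, cond_scale, cond_scale] at hcond
  obtain ⟨a1, a2, -⟩ := cond_ne (right_ne_zero_of_mul (right_ne_zero_of_mul hcond))
  have hpt : 4 • P + (2 * n) • (2 • P) + (n ^ 2) • P = (2 ^ (2 * (k + 1))) • P := by
    rw [← mul_nsmul, ← add_nsmul, ← add_nsmul]
    congr 1
    rw [show 2 ^ (2 * (k + 1)) = (2 ^ (k + 1)) ^ 2 by ring, ← hn2]
    ring
  rw [hpt] at hT
  obtain ⟨x, y, hxy, hx, hE⟩ := two_pow_pt K P T0.x1 T0.y1 hRep.1 hx1 (2 * (k + 1))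
  obtain ⟨hTx, -⟩ := isPt_unique hT.2.2 hxy
  obtain ⟨hTx1, -⟩ := isPt_unique hT.1 hRep.1
  obtain ⟨H, G, hH, hG, hGhom, -⟩ := hRed
  set g : Fin (3+1) → K[X] := fun i => MvPolynomial.aeval (gam K) (G i) with hg
  set h := MvPolynomial.aeval (gam K) H with hh
  have hprod : ∀ i, io K h * io K (g i) = c * Psi T i := by
    intro i
    rw [← map_mul, hh, hg, ← map_mul, ← hG i, aeval_iter]
    have := congrFun hS i
    rw [gamL_iter] at this
    exact this
  have ψ0 : Psi T 0 ≠ 0 := mul_ne_zero a1 a2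
  have hh0 : io K h ≠ 0 := by
    intro h0
    have := hprod 0
    rw [h0, zero_mul] at this
    exact mul_ne_zero hc ψ0 this.symm
  have hg0 : io K (g 0) ≠ 0 := by
    intro h0
    have := hprod 0
    rw [h0, mul_zero] at this
    exact mul_ne_zero hc ψ0 this.symm
  -- `g_2 x_1 = g_0 x_3`
  have h21 : io K (g 2) * T.x1 = io K (g 0) * T.x3 := by
    apply mul_left_cancel₀ hh0
    rw [← mul_assoc, hprod 2, ← mul_assoc, hprod 0]
    show c * (T.x3 * (T.y2 - T.y1)) * T.x1 = c * (T.x1 * (T.y2 - T.y1)) * T.x3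
    ring
  rw [hTx, hTx1] at h21
  -- the relation in the field
  have htx : tL K = io K X * T0.x1 ^ 3 := by
    rw [hx1, tL, ← map_pow, ← map_mul]
    congr 1
    ring
  have hx10 : T0.x1 ≠ 0 := by rwa [← hTx1]
  have hXX : io K X ≠ 0 := by
    intro h0
    exact X_ne_zero ((injective_iff_map_eq_zero (io K)).1 (io_inj K) _ h0)
  have hfin : io K (g 2 ^ 3 * (AB K (2 * (k + 1))).1) = io K (g 0 ^ 3 * (AB K (2 * (k + 1))).2) := by
    rw [map_mul, map_mul, map_pow, map_pow]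
    apply mul_left_cancel₀ (mul_ne_zero hXX (pow_ne_zero 3 hx10))
    rw [map_mul, htx] at hE
    have e1 : (io K (g 2) * T0.x1) ^ 3 = (io K (g 0) * x) ^ 3 := by rw [h21]
    linear_combination (io K X * io K (AB K (2 * (k + 1))).1) * e1 + (io K (g 0)) ^ 3 * hE
  have hfin' := io_inj K hfin
  have hcop : IsCoprime (AB K (2 * (k + 1))).1 (AB K (2 * (k + 1))).2 :=
    (AB_coprime (K := K) (2 * (k + 1))).of_mul_left_right
  have hdvd : (AB K (2 * (k + 1))).1 ∣ g 0 ^ 3 :=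
    hcop.dvd_of_dvd_mul_right (hfin' ▸ dvd_mul_left _ _)
  have hg0' : g 0 ≠ 0 := by
    rintro h0
    rw [h0, map_zero] at hg0
    exact hg0 rfl
  have hle := natDegree_le_of_dvd hdvd (pow_ne_zero _ hg0')
  rw [(AB_deg (K := K) _).2.2.1, natDegree_pow] at hle
  have hle2 : (g 0).natDegree ≤ e * 9 := by
    have hd : (G 0).totalDegree ≤ e := (hGhom 0).totalDegree_le
    exact MvPolynomial.aeval_natDegree_le (G 0) hd (gam K) (gam_deg K)
  omega

end Pool.Agent.R855.N4
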