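import Pool.Agent.R855.N4.Alg
import Pool.Agent.R855.N4.Pts

/-!
The upper bound for the degrees of the iterates `f^(2^k)`.
-/

set_option autoImplicit false

open MvPolynomial Pool.Agent.Helper993.CS WeierstrassCurve

namespace Pool.Agent.R855.N4

section Dg

variable {σ K L : Type*} [Field K] [Field L] [Algebra (MvPolynomial σ K) L]
  [IsFractionRing (MvPolynomial σ K) L]

/-- `a` is a quotient of polynomials of degree at most `d` -/
def Dg (a : L) (d : ℕ) : Prop := ∃ p q : MvPolynomial σ K, q ≠ 0 ∧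
  a * algebraMap (MvPolynomial σ K) L q = algebraMap (MvPolynomial σ K) L p ∧
  p.totalDegree ≤ d ∧ q.totalDegree ≤ d

variable (σ K) in
/-- the same with explicit ring -/
def DgR (a : L) (d : ℕ) : Prop := Dg (σ := σ) (K := K) a d

omit [IsFractionRing (MvPolynomial σ K) L] in
lemma DgR.mono {a : L} {d e : ℕ} (h : DgR σ K a d) (hde : d ≤ e) : DgR σ K a e := by
  obtain ⟨p, q, h1, h2, h3, h4⟩ := h
  exact ⟨p, q, h1, h2, h3.trans hde, h4.trans hde⟩

omit [IsFractionRing (MvPolynomial σ K) L] in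
lemma DgR.add {a b : L} {d e : ℕ} (ha : DgR σ K a d) (hb : DgR σ K b e) :
    DgR σ K (a + b) (d + e) := by
  obtain ⟨p, q, h1, h2, h3, h4⟩ := ha
  obtain ⟨p', q', h1', h2', h3', h4'⟩ := hb
  refine ⟨p * q' + p' * q, q * q', mul_ne_zero h1 h1', ?_, ?_, ?_⟩
  · rw [map_add, map_mul, map_mul, map_mul, ← h2, ← h2']
    ring
  · refine (totalDegree_add _ _).trans (max_le ?_ ?_)
    · exact (totalDegree_mul _ _).trans (add_le_add h3 h4')
    · refine (totalDegree_mul _ _).trans ?_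
      rw [add_comm]
      exact add_le_add h4 h3'
  · exact (totalDegree_mul _ _).trans (add_le_add h4 h4')

omit [IsFractionRing (MvPolynomial σ K) L] in
lemma DgR.mul {a b : L} {d e : ℕ} (ha : DgR σ K a d) (hb : DgR σ K b e) :
    DgR σ K (a * b) (d + e) := by
  obtain ⟨p, q, h1, h2, h3, h4⟩ := ha
  obtain ⟨p', q', h1', h2', h3', h4'⟩ := hb
  refine ⟨p * p', q * q', mul_ne_zero h1 h1', ?_, ?_, ?_⟩
  · rw [map_mul, map_mul, ← h2, ← h2']
    ring
  · exact (totalDegree_mul _ _).trans (add_le_add h3 h3')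
  · exact (totalDegree_mul _ _).trans (add_le_add h4 h4')

omit [IsFractionRing (MvPolynomial σ K) L] in
lemma DgR.neg {a : L} {d : ℕ} (ha : DgR σ K a d) : DgR σ K (-a) d := by
  obtain ⟨p, q, h1, h2, h3, h4⟩ := ha
  refine ⟨-p, q, h1, ?_, ?_, h4⟩
  · rw [map_neg, ← h2]
    ring
  · rwa [totalDegree_neg]

omit [IsFractionRing (MvPolynomial σ K) L] in
lemma DgR.sub {a b : L} {d e : ℕ} (ha : DgR σ K a d) (hb : DgR σ K b e) :
    DgR σ K (a - b) (d + e) := by
  rw [sub_eq_add_neg]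
  exact ha.add hb.neg

lemma alg_ne {q : MvPolynomial σ K} (hq : q ≠ 0) : algebraMap (MvPolynomial σ K) L q ≠ 0 := by
  intro h0
  exact hq (IsFractionRing.to_map_eq_zero_iff.1 h0)

lemma DgR.inv {a : L} {d : ℕ} (ha : DgR σ K a d) : DgR σ K a⁻¹ d := by
  obtain ⟨p, q, h1, h2, h3, h4⟩ := ha
  by_cases hp : p = 0
  · have ha0 : a = 0 := by
      rw [hp, map_zero] at h2
      exact (mul_eq_zero.1 h2).resolve_right (alg_ne h1)
    refine ⟨0, 1, one_ne_zero, ?_, ?_, ?_⟩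
    · rw [ha0]
      simp
    · simp
    · simp
  · have hp' : algebraMap (MvPolynomial σ K) L p ≠ 0 := alg_ne hp
    have ha0 : a ≠ 0 := by
      rintro rfl
      rw [zero_mul] at h2
      exact hp' h2.symm
    refine ⟨q, p, hp, ?_, h4, h3⟩
    rw [← h2]
    field_simp

lemma DgR.div {a b : L} {d e : ℕ} (ha : DgR σ K a d) (hb : DgR σ K b e) :
    DgR σ K (a / b) (d + e) := by
  rw [div_eq_mul_inv]
  exact ha.mul hb.inv

omit [IsFractionRing (MvPolynomial σ K) L] in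
lemma DgR.of_poly (p : MvPolynomial σ K) : DgR σ K (algebraMap (MvPolynomial σ K) L p)
    p.totalDegree := by
  refine ⟨p, 1, one_ne_zero, ?_, le_rfl, ?_⟩
  · rw [map_one, mul_one]
  · simp

omit [IsFractionRing (MvPolynomial σ K) L] in
lemma DgR.ofNat (k : ℕ) [k.AtLeastTwo] : DgR σ K (OfNat.ofNat k : L) 0 := by
  have h := DgR.of_poly (L := L) (C (OfNat.ofNat k : K) : MvPolynomial σ K)
  rw [totalDegree_C] at h
  rwa [map_ofNat C k, map_ofNat] at h

omit [IsFractionRing (MvPolynomial σ K) L] in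
lemma DgR.sq {a : L} {d : ℕ} (ha : DgR σ K a d) : DgR σ K (a ^ 2) (d + d) := by
  rw [pow_two]
  exact ha.mul ha

variable [DecidableEq L]

variable (σ K) in
/-- degrees of points -/
def DgP {t : L} (P : (Wc t).Point) (d : ℕ) : Prop :=
  P = 0 ∨ ∃ x y, IsPt t P x y ∧ DgR σ K x d ∧ DgR σ K y d

omit [DecidableEq L] [IsFractionRing (MvPolynomial σ K) L] in
lemma DgP.mono {t : L} {P : (Wc t).Point} {d e : ℕ} (h : DgP σ K P d) (hde : d ≤ e) :
    DgP σ K P e := by
  rcases h with h | ⟨x, y, h1, h2, h3⟩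
  · exact Or.inl h
  · exact Or.inr ⟨x, y, h1, h2.mono hde, h3.mono hde⟩

lemma DgP.add (h2 : (2 : L) ≠ 0) {t : L} {P Q : (Wc t).Point} {d e : ℕ} (hP : DgP σ K P d)
    (hQ : DgP σ K Q e) : DgP σ K (P + Q) (13 * (d + e)) := by
  rcases hP with hP | ⟨x1, y1, a1, a2, a3⟩
  · rw [hP, zero_add]
    exact hQ.mono (by omega)
  rcases hQ with hQ | ⟨x2, y2, b1, b2, b3⟩
  · rw [hQ, add_zero]
    exact DgP.mono (Or.inr ⟨x1, y1, a1, a2, a3⟩) (by omega)
  by_cases hx : x2 - x1 = 0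
  · have hx' : x1 = x2 := by linear_combination -hx
    obtain ⟨n1, r1⟩ := a1
    obtain ⟨n2, r2⟩ := b1
    rcases (Affine.Point.X_eq_iff (h₁ := n1) (h₂ := n2)).1 hx' with h | h
    · rw [← r1, ← r2] at h
      subst h
      by_cases hy : y1 = 0
      · left
        rw [r1]
        apply Affine.Point.add_self_of_Y_eq
        simp [Affine.negY, hy]
      · have h3 := isPt_double h2 ⟨n1, r1⟩ hy
        refine Or.inr ⟨_, _, h3, ?_, ?_⟩
        · have e1 : DgR σ K (3 * x1 ^ 2 / (2 * y1)) (0 + (d + d) + (0 + d)) :=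
            ((DgR.ofNat 3).mul a2.sq).div ((DgR.ofNat 2).mul a3)
          exact DgR.mono ((e1.sq.sub a2).sub a2) (by omega)
        · have e1 : DgR σ K (3 * x1 ^ 2 / (2 * y1)) (0 + (d + d) + (0 + d)) :=
            ((DgR.ofNat 3).mul a2.sq).div ((DgR.ofNat 2).mul a3)
          have e2 := (e1.sq.sub a2).sub a2
          exact DgR.mono ((e1.mul (e2.sub a2)).add a3).neg (by omega)
    · left
      rw [r1, h, r2]
      exact neg_add_cancel _
  · refine Or.inr ⟨_, _, isPt_add a1 b1 hx, ?_, ?_⟩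
    · have e1 : DgR σ K ((y1 - y2) / (x1 - x2)) ((d + e) + (d + e)) := (a3.sub b3).div (a2.sub b2)
      exact DgR.mono ((e1.sq.sub a2).sub b2) (by omega)
    · have e1 : DgR σ K ((y1 - y2) / (x1 - x2)) ((d + e) + (d + e)) := (a3.sub b3).div (a2.sub b2)
      have e2 : DgR σ K (aX x1 y1 x2 y2) (((d + e) + (d + e)) + ((d + e) + (d + e)) + d + e) :=
        (e1.sq.sub a2).sub b2
      exact DgR.mono ((e1.mul (e2.sub a2)).add a3).neg (by omega)

lemma DgP.two_pow (h2 : (2 : L) ≠ 0) {t : L} {P : (Wc t).Point} {d : ℕ} (hP : DgP σ K P d)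
    (k : ℕ) : DgP σ K ((2 ^ k) • P) (26 ^ k * d) := by
  induction k with
  | zero => simpa using hP
  | succ k ih =>
    have h := ih.add h2 ih
    rw [← two_nsmul, ← mul_nsmul] at h
    rw [show 2 ^ (k + 1) = 2 ^ k * 2 by ring]
    refine h.mono ?_
    rw [show 26 ^ (k + 1) * d = 13 * (26 ^ k * d + 26 ^ k * d) by ring]

end Dg

section Main

variable (K : Type*) [Field K]

/-- the field of rational functions in the coordinates -/
abbrev LL : Type _ := FractionRing (MvPolynomial (Fin (3+1)) K)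

/-- the generic point -/
noncomputable def gen : Fin (3+1) → LL K := fun i =>
  algebraMap (MvPolynomial (Fin (3+1)) K) (LL K) (X i)

lemma gen_iter (n : ℕ) (i : Fin (3+1)) :
    S^[n] (gen K) i = algebraMap (MvPolynomial (Fin (3+1)) K) (LL K) (iter (FS K) n i) := by
  induction n generalizing i with
  | zero => rfl
  | succ n ih =>
    rw [Function.iterate_succ_apply', iter_FS, Function.iterate_succ_apply', map_S]
    congr 1
    funext j
    rw [ih, iter_FS]

variable [CharZero K]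

lemma two_ne (L : Type*) [Field L] [CharZero L] : (2 : L) ≠ 0 := two_ne_zero

instance : CharZero (LL K) := by
  have : CharZero (MvPolynomial (Fin (3+1)) K) := inferInstance
  exact charZero_of_injective_algebraMap
    (IsFractionRing.injective (MvPolynomial (Fin (3+1)) K) (LL K))

lemma gen_cond (n : ℕ) : (Phi (S^[n] (gen K))).cond ≠ 0 := by
  have h1 : S^[n] (gen K) = fun i => algebraMap (MvPolynomial (Fin (3+1)) K) (LL K)
      (S^[n] (XX K) i) := by
    funext i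
    rw [gen_iter, iter_FS]
  rw [h1, ← map_Phi, ← map_cond, Ne, IsFractionRing.to_map_eq_zero_iff]
  exact condX_ne n

/-- the generic triple -/
noncomputable def T0 : Tr (LL K) := Phi (gen K)

/-- the generic curve -/
noncomputable def tt : LL K := py (gen K) ^ 2 - (4 * pb (gen K) * pM (gen K) * gen K 0 ^ 2) ^ 3

omit [CharZero K] in
lemma T0_on : (T0 K).On (tt K) := Phi_on _

lemma T0_cond : (T0 K).cond ≠ 0 := gen_cond K 0

lemma exists_pts : ∃ P1 P2 P3 : (Wc (tt K)).Point, Rep (tt K) P1 P2 P3 (T0 K) := by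
  obtain ⟨h1, h2, h3⟩ := T0_on K
  obtain ⟨a1, a2, a3, a4, a5, a6, a7⟩ := cond_ne (T0_cond K)
  have hb : 4 * pb (gen K) * pM (gen K) * gen K 0 ^ 2 ≠ 0 := a1
  have hX : ∀ i, gen K i ≠ 0 := by
    intro i
    unfold gen
    rw [Ne, IsFractionRing.to_map_eq_zero_iff]
    exact X_ne_zero i
  have hbM : 4 * pb (gen K) * pM (gen K) ≠ 0 := left_ne_zero_of_mul hb
  obtain ⟨P1, hP1⟩ := isPt_some (two_ne (LL K)) (by norm_num) h1 (Or.inl a1)
  obtain ⟨P2, hP2⟩ := isPt_some (two_ne (LL K)) (by norm_num) h2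
    (Or.inl (mul_ne_zero hbM (mul_ne_zero (hX 0) (hX 1))))
  obtain ⟨P3, hP3⟩ := isPt_some (two_ne (LL K)) (by norm_num) h3
    (Or.inl (mul_ne_zero hbM (mul_ne_zero (hX 0) (hX 2))))
  exact ⟨P1, P2, P3, hP1, hP2, hP3⟩

lemma gen_eq : ∃ c : LL K, c ≠ 0 ∧ gen K = c • Psi (T0 K) := by
  have h := Psi_Phi (gen K)
  obtain ⟨a1, -⟩ := cond_ne (T0_cond K)
  have hb : 4 * pb (gen K) * pM (gen K) * gen K 0 ^ 2 ≠ 0 := a1
  have h0 : gen K 0 ≠ 0 := by
    intro h0
    rw [h0] at hb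
    simp at hb
  have h1 : pM (gen K) ≠ 0 := right_ne_zero_of_mul (left_ne_zero_of_mul hb)
  have h2 : pb (gen K) ≠ 0 := right_ne_zero_of_mul (left_ne_zero_of_mul (left_ne_zero_of_mul hb))
  have h3 : (32 * pb (gen K) ^ 3 * pM (gen K) ^ 2 * gen K 0 ^ 3) ≠ 0 := by
    have : (32 : LL K) ≠ 0 := by norm_num
    exact mul_ne_zero (mul_ne_zero (mul_ne_zero this (pow_ne_zero _ h2)) (pow_ne_zero _ h1))
      (pow_ne_zero _ h0)
  refine ⟨(32 * pb (gen K) ^ 3 * pM (gen K) ^ 2 * gen K 0 ^ 3)⁻¹, inv_ne_zero h3, ?_⟩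
  rw [T0, h, smul_smul, inv_mul_cancel₀ h3, one_smul]

lemma iter_ne (n : ℕ) : iter (FS K) n 0 ≠ 0 := by
  intro h0
  have h1 := gen_cond K n
  obtain ⟨a1, -⟩ := cond_ne h1
  have hb : 4 * pb (S^[n] (gen K)) * pM (S^[n] (gen K)) * S^[n] (gen K) 0 ^ 2 ≠ 0 := a1
  rw [gen_iter, h0, map_zero] at hb
  simp at hb

/-- the degrees of the iterates `f^(2^k)` -/
theorem upper : ∃ C : ℕ, ∀ (k e : ℕ), RedDeg (iter (FS K) (2 ^ k)) e → e ≤ C * 676 ^ k := by
  classical
  obtain ⟨P1, P2, P3, hRep⟩ := exists_pts K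
  obtain ⟨c0, hc0, hgen⟩ := gen_eq K
  -- all elements have a degree
  have hex : ∀ a : LL K, ∃ d, DgR (Fin (3+1)) K a d := by
    intro a
    obtain ⟨p, q, hq, h⟩ := IsFractionRing.div_surjective (A := MvPolynomial (Fin (3+1)) K) a
    refine ⟨max p.totalDegree q.totalDegree, p, q, nonZeroDivisors.ne_zero hq, ?_, le_max_left _ _,
      le_max_right _ _⟩
    rw [← h, div_mul_cancel₀]
    rw [Ne, IsFractionRing.to_map_eq_zero_iff]
    exact nonZeroDivisors.ne_zero hq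
  have hexP : ∀ (P : (Wc (tt K)).Point) (x y : LL K), IsPt (tt K) P x y →
      ∃ d, DgP (Fin (3+1)) K P d := by
    intro P x y h
    obtain ⟨d, hd⟩ := hex x
    obtain ⟨e, he⟩ := hex y
    exact ⟨d + e, Or.inr ⟨x, y, h, hd.mono (by omega), he.mono (by omega)⟩⟩
  obtain ⟨d1, hd1⟩ := hexP P1 _ _ hRep.1
  obtain ⟨d2, hd2⟩ := hexP P2 _ _ hRep.2.1
  obtain ⟨d3, hd3⟩ := hexP P3 _ _ hRep.2.2
  set d := d1 + d2 + d3 with hd
  have hP1 : DgP (Fin (3+1)) K P1 d := hd1.mono (by omega)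
  have hP2 : DgP (Fin (3+1)) K P2 d := hd2.mono (by omega)
  have hP3 : DgP (Fin (3+1)) K P3 d := hd3.mono (by omega)
  refine ⟨24 * (13 * (13 * (d + 26 * d) + d)), fun k e hRed => ?_⟩
  have h2L := two_ne (LL K)
  obtain ⟨c, T, hc, hS, hT⟩ := iter_rep h2L P1 P2 P3 (T0 K) hRep c0 hc0 (gen K) hgen (2 ^ k)
    (fun j _ => gen_cond K j)
  -- degrees of the three points
  have hpow : 26 ^ k ≤ 676 ^ k := Nat.pow_le_pow_left (by norm_num) k
  have h1pow : 1 ≤ 676 ^ k := Nat.one_le_pow _ _ (by norm_num)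
  set D := 13 * (13 * (d + 26 * d) + d) * 676 ^ k with hD
  have q1 : DgP (Fin (3+1)) K P1 D := by
    refine hP1.mono ?_
    calc d ≤ 13 * (13 * (d + 26 * d) + d) := by omega
      _ ≤ D := Nat.le_mul_of_pos_right _ (by positivity)
  have q2 : DgP (Fin (3+1)) K (P2 + (2 ^ k) • P1) D := by
    refine (hP2.add h2L (hP1.two_pow h2L k)).mono ?_
    calc 13 * (d + 26 ^ k * d) ≤ 13 * (d * 676 ^ k + 676 ^ k * d) := by
          gcongr
          exact Nat.le_mul_of_pos_right _ (by positivity)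
      _ ≤ D := by
          rw [hD]
          nlinarith [Nat.zero_le (d * 676 ^ k)]
  have q3 : DgP (Fin (3+1)) K (P3 + (2 * 2 ^ k) • P2 + ((2 ^ k) ^ 2) • P1) D := by
    have r1 : DgP (Fin (3+1)) K ((2 * 2 ^ k) • P2) (26 ^ (k + 1) * d) := by
      rw [show 2 * 2 ^ k = 2 ^ (k + 1) by ring]
      exact hP2.two_pow h2L (k + 1)
    have r2 : DgP (Fin (3+1)) K (((2 ^ k) ^ 2) • P1) (26 ^ (2 * k) * d) := by
      rw [show (2 ^ k) ^ 2 = 2 ^ (2 * k) by ring]
      exact hP1.two_pow h2L (2 * k)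
    refine (((hP3.add h2L r1)).add h2L r2).mono ?_
    have e1 : 26 ^ (2 * k) = 676 ^ k := by
      rw [pow_mul]
      norm_num
    have e2 : 26 ^ (k + 1) = 26 * 26 ^ k := by ring
    rw [e1, e2, hD]
    have e3 : 26 ^ k * d ≤ 676 ^ k * d := Nat.mul_le_mul_right _ hpow
    have e4 : d ≤ 676 ^ k * d := Nat.le_mul_of_pos_left _ (by positivity)
    nlinarith
  have hx : ∀ (P : (Wc (tt K)).Point) (x y : LL K), IsPt (tt K) P x y →
      DgP (Fin (3+1)) K P D → DgR (Fin (3+1)) K x D ∧ DgR (Fin (3+1)) K y D := by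
    rintro P x y h (h0 | ⟨x', y', h1, h2, h3⟩)
    · exfalso
      obtain ⟨n, h⟩ := h
      rw [h0] at h
      exact Affine.Point.some_ne_zero _ h.symm
    · obtain ⟨rfl, rfl⟩ := isPt_unique h h1
      exact ⟨h2, h3⟩
  obtain ⟨s1, s2⟩ := hx _ _ _ hT.1 q1
  obtain ⟨s3, s4⟩ := hx _ _ _ hT.2.1 q2
  obtain ⟨s5, s6⟩ := hx _ _ _ hT.2.2 q3
  -- nondegeneracy of the last triple
  have hcond := gen_cond K (2 ^ k)
  rw [hS, Phi_smul, Phi_Psi T _ hT.on, cond_scale, cond_scale] at hcond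
  obtain ⟨a1, a2, -⟩ := cond_ne (right_ne_zero_of_mul (right_ne_zero_of_mul hcond))
  have ψ0 : Psi T 0 ≠ 0 := mul_ne_zero a1 a2
  have hψ : ∀ i, DgR (Fin (3+1)) K (Psi T i) (3 * D) := by
    intro i
    fin_cases i
    · exact (s1.mul (s4.sub s2)).mono (by omega)
    · exact (s3.mul (s4.sub s2)).mono (by omega)
    · exact (s5.mul (s4.sub s2)).mono (by omega)
    · exact (s1.mul (s6.sub s2)).mono (by omega)
  have hr : ∀ i, DgR (Fin (3+1)) K (Psi T i / Psi T 0) (3 * D + 3 * D) := fun i =>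
    (hψ i).div (hψ 0)
  choose a b hb hab ha' hb' using hr
  obtain ⟨H, G, hH, hG, hGhom, hGcop⟩ := hRed
  have hG0 : G 0 ≠ 0 := by
    intro h0
    apply iter_ne K (2 ^ k)
    rw [hG 0, h0, mul_zero]
  -- the forms `G` are proportional to `Psi T`
  have hGa : ∀ i, G i * b i = G 0 * a i := by
    intro i
    apply IsFractionRing.injective (MvPolynomial (Fin (3+1)) K) (LL K)
    have e1 : ∀ i, algebraMap (MvPolynomial (Fin (3+1)) K) (LL K) H *
        algebraMap (MvPolynomial (Fin (3+1)) K) (LL K) (G i) = c * Psi T i := by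
      intro i
      rw [← map_mul, ← hG i, ← gen_iter, hS]
      rfl
    have hH' : algebraMap (MvPolynomial (Fin (3+1)) K) (LL K) H ≠ 0 := by
      rw [Ne, IsFractionRing.to_map_eq_zero_iff]
      exact hH
    rw [map_mul, map_mul, ← hab i]
    apply mul_left_cancel₀ hH'
    rw [← mul_assoc, ← mul_assoc, e1, e1]
    field_simp
  have hdvd : G 0 ∣ b 0 * b 1 * b 2 * b 3 := by
    refine red_assoc (P := fun i => b 0 * b 1 * b 2 * b 3 * G i) (G := G) (fun i => rfl) hGcop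
      (G 0) fun i => ?_
    fin_cases i
    · show G 0 ∣ b 0 * b 1 * b 2 * b 3 * G 0
      exact dvd_mul_left _ _
    · show G 0 ∣ b 0 * b 1 * b 2 * b 3 * G 1
      rw [show b 0 * b 1 * b 2 * b 3 * G 1 = (G 1 * b 1) * (b 0 * b 2 * b 3) by ring, hGa 1]
      exact (dvd_mul_right _ _).mul_right _
    · show G 0 ∣ b 0 * b 1 * b 2 * b 3 * G 2
      rw [show b 0 * b 1 * b 2 * b 3 * G 2 = (G 2 * b 2) * (b 0 * b 1 * b 3) by ring, hGa 2]
      exact (dvd_mul_right _ _).mul_right _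
    · show G 0 ∣ b 0 * b 1 * b 2 * b 3 * G 3
      rw [show b 0 * b 1 * b 2 * b 3 * G 3 = (G 3 * b 3) * (b 0 * b 1 * b 2) by ring, hGa 3]
      exact (dvd_mul_right _ _).mul_right _
  have hne : b 0 * b 1 * b 2 * b 3 ≠ 0 :=
    mul_ne_zero (mul_ne_zero (mul_ne_zero (hb 0) (hb 1)) (hb 2)) (hb 3)
  have hle := totalDegree_le_of_dvd_of_isDomain hdvd hne
  rw [(hGhom 0).totalDegree hG0] at hle
  have hle2 : (b 0 * b 1 * b 2 * b 3).totalDegree ≤ 4 * (6 * D) := by
    refine (totalDegree_mul _ _).trans ?_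
    have t1 := totalDegree_mul (b 0 * b 1) (b 2)
    have t2 := totalDegree_mul (b 0) (b 1)
    have t3 := hb' 0
    have t4 := hb' 1
    have t5 := hb' 2
    have t6 := hb' 3
    omega
  calc e ≤ 4 * (6 * D) := hle.trans hle2
    _ = 24 * (13 * (13 * (d + 26 * d) + d)) * 676 ^ k := by
      rw [hD]
      ring

end Main

end Pool.Agent.R855.N4
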